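import Pool.Agent.Helper6.Flow.Prog

/-!
Kernel evaluation of the integer program.
-/

set_option autoImplicit false

namespace Pool.Agent.Helper6.Flow.Prog

theorem run_true : run 193 32 452 = true := by decide +kernel

end Pool.Agent.Helper6.Flow.Prog
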