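import Mathlib

/-!
A Gaussian type functional on polynomials, the projection to the sum-zero hyperplane, and the
relation between the moments of the cubic power sum before and after the projection.
-/

set_option autoImplicit false

namespace Pool.Agent.Helper6.Flow

open Finset MvPolynomial

/-- moments of a Gaussian of variance `k` -/
noncomputable def mu (k : ℝ) : ℕ → ℝ
  | 0 => 1
  | 1 => 0
  | n + 2 => k * (n + 1) * mu k n

lemma mu_odd (k : ℝ) : ∀ n : ℕ, mu k (2 * n + 1) = 0 := by
  intro n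
  induction n with
  | zero => simp [mu]
  | succ n ih =>
    have : 2 * (n + 1) + 1 = (2 * n + 1) + 2 := by ring
    rw [this, mu, ih, mul_zero]

section Functional

variable {C : Type} [Fintype C] [DecidableEq C]

/-- the Gaussian functional with independent coordinates of variance `k` -/
noncomputable def EE (k : ℝ) : MvPolynomial C ℝ →ₗ[ℝ] ℝ :=
  (MvPolynomial.basisMonomials C ℝ).constr ℝ (fun s => ∏ c, mu k (s c))

omit [DecidableEq C] in
lemma EE_monomial (k : ℝ) (s : C →₀ ℕ) (a : ℝ) :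
    EE k (monomial s a) = a * ∏ c, mu k (s c) := by
  have h : monomial s a = a • (MvPolynomial.basisMonomials C ℝ s) := by
    rw [coe_basisMonomials, smul_monomial, smul_eq_mul, mul_one]
  rw [h, map_smul, EE, Module.Basis.constr_basis, smul_eq_mul]

lemma EE_stein (k : ℝ) (c : C) (f : MvPolynomial C ℝ) :
    EE k (X c * f) = k * EE k (pderiv c f) := by
  induction f using MvPolynomial.induction_on' with
  | add p q hp hq => rw [mul_add, map_add, map_add, map_add, hp, hq, mul_add]
  | monomial s a =>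
    rw [X, monomial_mul, one_mul, EE_monomial, pderiv_monomial, EE_monomial]
    rw [← mul_prod_erase univ _ (mem_univ c), ← mul_prod_erase univ (fun c' => mu k ((s - _) c'))
      (mem_univ c)]
    have h1 : ∏ x ∈ univ.erase c, mu k ((Finsupp.single c 1 + s : C →₀ ℕ) x) =
        ∏ x ∈ univ.erase c, mu k (s x) := by
      refine prod_congr rfl fun x hx => ?_
      rw [Finsupp.add_apply, Finsupp.single_eq_of_ne (ne_of_mem_erase hx), zero_add]
    have h2 : ∏ x ∈ univ.erase c, mu k ((s - Finsupp.single c 1 : C →₀ ℕ) x) =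
        ∏ x ∈ univ.erase c, mu k (s x) := by
      refine prod_congr rfl fun x hx => ?_
      rw [Finsupp.tsub_apply, Finsupp.single_eq_of_ne (ne_of_mem_erase hx), tsub_zero]
    rw [h1, h2, Finsupp.add_apply, Finsupp.tsub_apply, Finsupp.single_eq_same]
    rcases Nat.eq_zero_or_pos (s c) with h0 | h0
    · rw [h0]
      simp [mu]
    · obtain ⟨n, hn⟩ := Nat.exists_eq_succ_of_ne_zero h0.ne'
      rw [hn]
      have : 1 + n.succ = n + 2 := by omega
      rw [this, mu]
      simp only [Nat.succ_eq_add_one, Nat.add_sub_cancel]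
      push_cast
      ring

variable (C) in
/-- the total derivative along the diagonal -/
noncomputable def dtot : Derivation ℝ (MvPolynomial C ℝ) (MvPolynomial C ℝ) :=
  ∑ c : C, pderiv c

variable (C) in
/-- the mean of the variables -/
noncomputable def zeta : MvPolynomial C ℝ := MvPolynomial.C ((Fintype.card C : ℝ)⁻¹) * ∑ c, X c

/-- the centred variables -/
noncomputable def Yv (c : C) : MvPolynomial C ℝ := X c - zeta C

/-- the derivation dual to a centred variable -/
noncomputable def Dv (c : C) : Derivation ℝ (MvPolynomial C ℝ) (MvPolynomial C ℝ) :=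
  (Fintype.card C : ℝ) • pderiv c - dtot C

omit [Fintype C] in
lemma der_sum (s : Finset C) (D : C → Derivation ℝ (MvPolynomial C ℝ) (MvPolynomial C ℝ))
    (f : MvPolynomial C ℝ) : (∑ c ∈ s, D c) f = ∑ c ∈ s, D c f := by
  induction s using Finset.induction_on with
  | empty => simp
  | insert a s ha ih => rw [sum_insert ha, sum_insert ha, Derivation.add_apply, ih]

lemma dtot_apply (f : MvPolynomial C ℝ) : dtot C f = ∑ c, pderiv c f := by
  rw [dtot, der_sum]

variable [Nonempty C]

lemma card_ne : (Fintype.card C : ℝ) ≠ 0 := by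
  exact_mod_cast Fintype.card_ne_zero

lemma pderiv_zeta (c : C) : pderiv c (zeta C) = MvPolynomial.C ((Fintype.card C : ℝ)⁻¹) := by
  rw [zeta, Derivation.leibniz, pderiv_C, smul_zero, add_zero, map_sum, smul_eq_mul]
  have : ∑ x : C, pderiv c (X x : MvPolynomial C ℝ) = 1 := by
    simp only [pderiv_X, Pi.single_apply]
    simp
  rw [this, mul_one]

lemma dtot_zeta : dtot C (zeta C) = 1 := by
  rw [dtot_apply]
  simp only [pderiv_zeta, sum_const, card_univ]
  rw [nsmul_eq_mul, ← map_natCast (MvPolynomial.C), ← map_mul, mul_inv_cancel₀ card_ne, map_one]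

lemma dtot_X (c : C) : dtot C (X c) = 1 := by
  rw [dtot_apply]
  simp only [pderiv_X, Pi.single_apply]
  simp

lemma dtot_Y (c : C) : dtot C (Yv c) = 0 := by
  rw [Yv, map_sub, dtot_zeta, dtot_X, sub_self]

lemma sum_Y : ∑ c : C, Yv c = 0 := by
  simp only [Yv, sum_sub_distrib, sum_const, card_univ, zeta]
  rw [nsmul_eq_mul, ← map_natCast (MvPolynomial.C), ← mul_assoc, ← map_mul,
    mul_inv_cancel₀ card_ne, map_one, one_mul, sub_self]

lemma Dv_Y (c c' : C) : Dv c (Yv c') =
    algebraMap ℝ (MvPolynomial C ℝ) ((Fintype.card C : ℝ) * (if c = c' then 1 else 0) - 1) := by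
  rw [Dv, Derivation.sub_apply, dtot_Y, sub_zero, Derivation.smul_apply, Yv, map_sub, pderiv_zeta,
    pderiv_X, MvPolynomial.algebraMap_eq, smul_sub, smul_eq_C_mul, smul_eq_C_mul, ← map_mul,
    mul_inv_cancel₀ card_ne, map_one, map_sub, map_mul, map_one, Pi.single_apply]
  congr 2
  by_cases h : c = c'
  · simp [h]
  · simp [h, Ne.symm h]

/-- The functional whose variance is the number of variables. -/
noncomputable abbrev E0 : MvPolynomial C ℝ →ₗ[ℝ] ℝ := EE (Fintype.card C : ℝ)

omit [Nonempty C] [DecidableEq C] in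
lemma E0_one : E0 (1 : MvPolynomial C ℝ) = 1 := by
  have : (1 : MvPolynomial C ℝ) = monomial 0 1 := rfl
  rw [E0, this, EE_monomial]
  simp [mu]

lemma E0_zeta (f : MvPolynomial C ℝ) : E0 (zeta C * f) = E0 (dtot C f) := by
  rw [zeta, mul_assoc, ← smul_eq_C_mul, map_smul, sum_mul, map_sum, dtot_apply, map_sum]
  simp only [EE_stein]
  rw [← mul_sum, smul_eq_mul, ← mul_assoc, inv_mul_cancel₀ card_ne, one_mul]

lemma E0_Y (c : C) (f : MvPolynomial C ℝ) : E0 (Yv c * f) = E0 (Dv c f) := by
  rw [Yv, sub_mul, map_sub, E0_zeta, E0, EE_stein, Dv, Derivation.sub_apply, map_sub,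
    Derivation.smul_apply, map_smul, smul_eq_mul]

variable (C) in
/-- cubic power sum of the centred variables -/
noncomputable def pp : MvPolynomial C ℝ := ∑ c : C, Yv c ^ 3

variable (C) in
/-- quadratic power sum of the centred variables -/
noncomputable def ss : MvPolynomial C ℝ := ∑ c : C, Yv c ^ 2

variable (C) in
/-- Euler derivation in the centred variables -/
noncomputable def eul : Derivation ℝ (MvPolynomial C ℝ) (MvPolynomial C ℝ) :=
  ∑ c : C, Yv c • pderiv c

lemma eul_apply (f : MvPolynomial C ℝ) : eul C f = ∑ c, Yv c * pderiv c f := by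
  rw [eul, der_sum]
  simp only [Derivation.smul_apply, smul_eq_mul]

lemma eul_Y (c : C) : eul C (Yv c) = Yv c := by
  rw [eul_apply]
  simp only [Yv, map_sub, pderiv_zeta, mul_sub]
  rw [sum_sub_distrib]
  have h1 : ∑ x : C, (X x - zeta C) * pderiv x (X c) = X c - zeta C := by
    simp only [pderiv_X, Pi.single_apply, mul_ite, mul_one, mul_zero]
    simp
  have h2 : ∑ x : C, (X x - zeta C) * (MvPolynomial.C ((Fintype.card C : ℝ)⁻¹)) = 0 := by
    rw [← sum_mul]
    have := sum_Y (C := C)
    simp only [Yv] at this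
    rw [this, zero_mul]
  rw [h1, h2, sub_zero]

lemma eul_pp : eul C (pp C) = 3 * pp C := by
  rw [pp, map_sum, mul_sum]
  refine sum_congr rfl fun c _ => ?_
  rw [Derivation.leibniz_pow, eul_Y, smul_eq_mul, nsmul_eq_mul]
  push_cast
  ring

lemma eul_ss : eul C (ss C) = 2 * ss C := by
  rw [ss, map_sum, mul_sum]
  refine sum_congr rfl fun c _ => ?_
  rw [Derivation.leibniz_pow, eul_Y, smul_eq_mul, nsmul_eq_mul]
  push_cast
  ring

lemma eul_mono (a b : ℕ) : eul C (ss C ^ b * pp C ^ a) =
    ((3 * a + 2 * b : ℕ) : MvPolynomial C ℝ) * (ss C ^ b * pp C ^ a) := by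
  rw [Derivation.leibniz, Derivation.leibniz_pow, Derivation.leibniz_pow, eul_pp, eul_ss]
  simp only [smul_eq_mul, nsmul_eq_mul]
  rcases Nat.eq_zero_or_pos a with ha | ha
  · subst ha
    rcases Nat.eq_zero_or_pos b with hb | hb
    · subst hb
      simp
    · obtain ⟨n, rfl⟩ := Nat.exists_eq_succ_of_ne_zero hb.ne'
      simp only [Nat.succ_eq_add_one, Nat.add_sub_cancel]
      push_cast
      ring
  · obtain ⟨m, rfl⟩ := Nat.exists_eq_succ_of_ne_zero ha.ne'
    rcases Nat.eq_zero_or_pos b with hb | hb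
    · subst hb
      simp only [Nat.succ_eq_add_one, Nat.add_sub_cancel]
      push_cast
      ring
    · obtain ⟨n, rfl⟩ := Nat.exists_eq_succ_of_ne_zero hb.ne'
      simp only [Nat.succ_eq_add_one, Nat.add_sub_cancel]
      push_cast
      ring

lemma dtot_pp : dtot C (pp C) = 0 := by
  rw [pp, map_sum]
  refine sum_eq_zero fun c _ => ?_
  rw [Derivation.leibniz_pow, dtot_Y, smul_zero, smul_zero]

lemma dtot_ss : dtot C (ss C) = 0 := by
  rw [ss, map_sum]
  refine sum_eq_zero fun c _ => ?_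
  rw [Derivation.leibniz_pow, dtot_Y, smul_zero, smul_zero]

lemma dtot_mono (a b : ℕ) : dtot C (ss C ^ b * pp C ^ a) = 0 := by
  rw [Derivation.leibniz, Derivation.leibniz_pow, Derivation.leibniz_pow, dtot_pp, dtot_ss]
  simp

lemma E0_ss (f : MvPolynomial C ℝ) : E0 (ss C * f) =
    (Fintype.card C : ℝ) * (((Fintype.card C : ℝ) - 1) * E0 f + E0 (eul C f)) := by
  set k : ℝ := (Fintype.card C : ℝ) with hk
  have h1 : ss C * f = ∑ c : C, Yv c * (Yv c * f) := by
    rw [ss, sum_mul]
    refine sum_congr rfl fun c _ => by ring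
  rw [h1, map_sum]
  simp only [E0_Y]
  rw [← map_sum]
  have h2 : ∑ c : C, Dv c (Yv c * f) = MvPolynomial.C (k * (k - 1)) * f + MvPolynomial.C k * eul C f := by
    have h3 : ∀ c : C, Dv c (Yv c * f) = MvPolynomial.C (k - 1) * f +
        (MvPolynomial.C k * (Yv c * pderiv c f) - Yv c * dtot C f) := by
      intro c
      rw [Derivation.leibniz, Dv_Y, if_pos rfl, mul_one, MvPolynomial.algebraMap_eq, Dv,
        Derivation.sub_apply, Derivation.smul_apply, smul_eq_C_mul, smul_eq_mul, smul_eq_mul, ← hk]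
      ring
    simp only [h3]
    have e1 : ∑ c : C, MvPolynomial.C (k - 1) * f = MvPolynomial.C (k * (k - 1)) * f := by
      rw [sum_const, card_univ, nsmul_eq_mul, ← map_natCast (MvPolynomial.C), ← hk,
        ← mul_assoc, ← map_mul]
    have e2 : ∑ c : C, MvPolynomial.C k * (Yv c * pderiv c f) = MvPolynomial.C k * eul C f := by
      rw [← mul_sum, ← eul_apply]
    have e3 : ∑ c : C, Yv c * dtot C f = 0 := by
      rw [← sum_mul, sum_Y, zero_mul]
    rw [sum_add_distrib, sum_sub_distrib, e1, e2, e3, sub_zero]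
  rw [h2, map_add, ← smul_eq_C_mul, ← smul_eq_C_mul, map_smul, map_smul, smul_eq_mul, smul_eq_mul]
  ring

lemma E0_mono (a b : ℕ) : E0 (ss C ^ b * pp C ^ a) =
    (Fintype.card C : ℝ) ^ b * (∏ i ∈ range b, ((3 * a + (Fintype.card C : ℝ) - 1) + 2 * i)) *
      E0 (pp C ^ a) := by
  induction b with
  | zero => simp
  | succ b ih =>
    rw [pow_succ' (ss C), mul_assoc, E0_ss, eul_mono, ← map_natCast (MvPolynomial.C),
      ← smul_eq_C_mul, map_smul, smul_eq_mul, ih, prod_range_succ]
    push_cast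
    ring

lemma E0_zeta_pow (f : MvPolynomial C ℝ) (hf : dtot C f = 0) : ∀ j : ℕ,
    E0 (zeta C ^ j * f) = mu 1 j * E0 f
  | 0 => by simp [mu]
  | 1 => by
    rw [pow_one, E0_zeta, hf, map_zero, mu, zero_mul]
  | j + 2 => by
    have h : zeta C ^ (j + 2) * f = zeta C * (zeta C ^ (j + 1) * f) := by ring
    rw [h, E0_zeta, Derivation.leibniz, hf, smul_zero, zero_add, Derivation.leibniz_pow,
      dtot_zeta, mu]
    have h2 : (f • (j + 1) • zeta C ^ (j + 1 - 1) • (1 : MvPolynomial C ℝ)) =
        MvPolynomial.C ((j : ℝ) + 1) * (zeta C ^ j * f) := by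
      simp only [smul_eq_mul, nsmul_eq_mul, Nat.add_sub_cancel]
      rw [map_add, map_natCast, map_one]
      push_cast
      ring
    rw [h2, ← smul_eq_C_mul, map_smul, smul_eq_mul, E0_zeta_pow f hf j]
    ring

lemma sum_X_cube : ∑ c : C, (X c : MvPolynomial C ℝ) ^ 3 =
    pp C + (3 * (zeta C * ss C) + MvPolynomial.C (Fintype.card C : ℝ) * zeta C ^ 3) := by
  have h : ∀ c : C, (X c : MvPolynomial C ℝ) ^ 3 =
      Yv c ^ 3 + (3 * (zeta C * Yv c ^ 2) + (3 * zeta C ^ 2 * Yv c + zeta C ^ 3)) := by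
    intro c
    rw [Yv]
    ring
  simp only [h]
  rw [sum_add_distrib, sum_add_distrib, sum_add_distrib, ← mul_sum, ← mul_sum, ← mul_sum,
    sum_Y, mul_zero, zero_add, sum_const, card_univ, nsmul_eq_mul, pp, ss, map_natCast]

/-- the auxiliary sums -/
noncomputable def Ph (n : ℕ) (y : ℝ) : ℝ :=
  ∑ b ∈ range (n + 1), 3 ^ b * (∏ i ∈ range b, (y + 2 * i)) * mu 1 (3 * n - 2 * b) /
    (b.factorial * (n - b).factorial)

/-- The moments of the full cubic power sum in terms of the centred ones. -/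
theorem moments (N : ℕ) : E0 ((∑ c : C, (X c : MvPolynomial C ℝ) ^ 3) ^ N) / N.factorial =
    ∑ a ∈ range (N + 1), E0 (pp C ^ a) / a.factorial * ((Fintype.card C : ℝ) ^ (N - a) *
      Ph (N - a) (3 * a + (Fintype.card C : ℝ) - 1)) := by
  set k : ℝ := (Fintype.card C : ℝ) with hk
  have hN : (N.factorial : ℝ) ≠ 0 := by positivity
  rw [sum_X_cube, add_pow, map_sum, sum_div]
  refine sum_congr rfl fun a ha => ?_
  have ha' : a ≤ N := Nat.lt_succ_iff.1 (mem_range.1 ha)
  set n := N - a with hn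
  rw [add_pow, mul_sum, sum_mul, map_sum, Ph, mul_sum, mul_sum, sum_div]
  refine sum_congr rfl fun b hb => ?_
  have hb' : b ≤ n := Nat.lt_succ_iff.1 (mem_range.1 hb)
  have h1 : pp C ^ a * ((3 * (zeta C * ss C)) ^ b *
      (MvPolynomial.C k * zeta C ^ 3) ^ (n - b) * (n.choose b : MvPolynomial C ℝ)) *
      (N.choose a : MvPolynomial C ℝ) =
      MvPolynomial.C (3 ^ b * k ^ (n - b) * (n.choose b) * (N.choose a)) *
        (zeta C ^ (3 * n - 2 * b) * (ss C ^ b * pp C ^ a)) := by
    have h2 : 3 * n - 2 * b = b + 3 * (n - b) := by omega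
    rw [h2]
    simp only [map_mul, map_pow, map_natCast, mul_pow, pow_add, pow_mul]
    have h3 : (MvPolynomial.C (3 : ℝ) : MvPolynomial C ℝ) = 3 := by
      rw [show (3 : ℝ) = ((3 : ℕ) : ℝ) by norm_num, map_natCast]
      norm_num
    rw [h3]
    ring
  rw [h1, ← smul_eq_C_mul, map_smul, smul_eq_mul, E0_zeta_pow _ (dtot_mono a b), E0_mono, ← hk]
  have hc1 : ((N.choose a : ℕ) : ℝ) = N.factorial / (a.factorial * n.factorial) := by
    rw [Nat.cast_choose ℝ ha']
  have hc2 : ((n.choose b : ℕ) : ℝ) = n.factorial / (b.factorial * (n - b).factorial) := by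
    rw [Nat.cast_choose ℝ hb']
  rw [hc1, hc2]
  have hk' : k ^ n = k ^ (n - b) * k ^ b := by
    rw [← pow_add]; congr 1; omega
  rw [hk']
  have e1 : (n.factorial : ℝ) ≠ 0 := by positivity
  have e2 : (a.factorial : ℝ) ≠ 0 := by positivity
  have e3 : (b.factorial : ℝ) ≠ 0 := by positivity
  have e4 : ((n - b).factorial : ℝ) ≠ 0 := by positivity
  field_simp

end Functional

lemma Ph_odd (j : ℕ) (y : ℝ) : Ph (2 * j + 1) y = 0 := by
  rw [Ph]
  refine sum_eq_zero fun b hb => ?_
  have hb' : b ≤ 2 * j + 1 := Nat.lt_succ_iff.1 (mem_range.1 hb)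
  have : 3 * (2 * j + 1) - 2 * b = 2 * (3 * j + 1 - b) + 1 := by omega
  rw [this, mu_odd]
  simp

lemma sum_even (m : ℕ) (g : ℕ → ℝ) (hg : ∀ i < m, g (2 * i + 1) = 0) :
    ∑ a ∈ range (2 * m + 1), g a = ∑ i ∈ range (m + 1), g (2 * i) := by
  induction m with
  | zero => simp
  | succ m ih =>
    rw [show 2 * (m + 1) + 1 = (2 * m + 1) + 1 + 1 by ring, sum_range_succ, sum_range_succ,
      ih (fun i hi => hg i (by omega)), hg m (by omega), add_zero, sum_range_succ _ (m + 1)]
    congr 2

end Pool.Agent.Helper6.Flow
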