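import Mathlib
import Pool.Agent.Helper6.Flow.Gauss

/-!
The moments of the full cubic power sum are coefficients of a power of a power series; the
recursions for these coefficients and for the centred moments.
-/

set_option autoImplicit false

namespace Pool.Agent.Helper6.Flow

open Finset MvPolynomial

/-- exponential generating series of the moments of a cube -/
noncomputable def ff (k : ℝ) : PowerSeries ℝ := PowerSeries.mk fun j => mu k (3 * j) / j.factorial

lemma sum_finsuppAntidiag {ι : Type} [Fintype ι] [DecidableEq ι] (n : ℕ) (g : (ι → ℕ) → ℝ) :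
    ∑ l ∈ finsuppAntidiag (univ : Finset ι) n, g l = ∑ f ∈ piAntidiag (univ : Finset ι) n, g f := by
  refine sum_bij' (fun l _ => (l : ι → ℕ)) (fun f _ => Finsupp.equivFunOnFinite.symm f) ?_ ?_ ?_ ?_ ?_
  · intro l hl
    rw [mem_finsuppAntidiag] at hl
    rw [mem_piAntidiag]
    exact ⟨hl.1, fun i _ => mem_univ i⟩
  · intro f hf
    rw [mem_piAntidiag] at hf
    rw [mem_finsuppAntidiag]
    exact ⟨hf.1, subset_univ _⟩
  · intro l _
    ext i
    rfl
  · intro f _
    rfl
  · intro l _
    rfl

section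

variable {C : Type} [Fintype C] [DecidableEq C]

theorem cube_moment (k : ℝ) (N : ℕ) :
    EE k ((∑ c : C, (X c : MvPolynomial C ℝ) ^ 3) ^ N) / N.factorial =
      PowerSeries.coeff N (ff k ^ (Fintype.card C)) := by
  have h1 : ff k ^ (Fintype.card C) = ∏ _c : C, ff k := by
    rw [prod_const, card_univ]
  rw [h1, PowerSeries.coeff_prod]
  have h2 := sum_finsuppAntidiag (ι := C) N
    (fun l => ∏ i : C, PowerSeries.coeff (l i) (ff k))
  rw [h2, sum_pow_eq_sum_piAntidiag, map_sum, sum_div]
  refine sum_congr rfl fun l hl => ?_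
  have hl' : ∑ i, l i = N := (mem_piAntidiag.1 hl).1
  have h3 : (∏ i : C, ((X i : MvPolynomial C ℝ) ^ 3) ^ l i) =
      monomial (Finsupp.equivFunOnFinite.symm (fun i => 3 * l i)) 1 := by
    rw [monomial_eq, map_one, one_mul, Finsupp.prod_fintype]
    · refine prod_congr rfl fun i _ => ?_
      rw [← pow_mul]
      rfl
    · intro i
      exact pow_zero _
  have h4 : ((Nat.multinomial univ l : ℕ) : MvPolynomial C ℝ) =
      MvPolynomial.C (Nat.multinomial univ l : ℝ) := by
    rw [map_natCast]
  rw [h3, h4, ← smul_eq_C_mul, map_smul, smul_eq_mul, EE_monomial, one_mul]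
  have h5 : (N.factorial : ℝ) = (∏ i : C, ((l i).factorial : ℝ)) * (Nat.multinomial univ l : ℝ) := by
    have := Nat.multinomial_spec (univ : Finset C) l
    rw [hl'] at this
    rw [← this]
    push_cast
    ring
  have h6 : (∏ i : C, ((l i).factorial : ℝ)) ≠ 0 :=
    prod_ne_zero_iff.2 fun i _ => by positivity
  have h7 : (Nat.multinomial univ l : ℝ) ≠ 0 := by
    intro h0
    rw [h0, mul_zero] at h5
    have : (N.factorial : ℝ) ≠ 0 := by positivity
    exact this h5
  rw [h5]
  simp only [ff, PowerSeries.coeff_mk, Finsupp.coe_equivFunOnFinite_symm, prod_div_distrib]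
  field_simp

end

/-- the coefficients of a power of a series -/
lemma coeff_pow_rec (f : PowerSeries ℝ) (hf : PowerSeries.coeff 0 f = 1) (n N : ℕ) :
    ((N : ℝ) + 1) * PowerSeries.coeff (N + 1) (f ^ n) =
      ∑ j ∈ range (N + 1), ((n : ℝ) * (j + 1) - ((N : ℝ) - j)) * PowerSeries.coeff (j + 1) f *
        PowerSeries.coeff (N - j) (f ^ n) := by
  have hD : f * PowerSeries.derivative ℝ (f ^ n) =
      (n : PowerSeries ℝ) * (PowerSeries.derivative ℝ f * f ^ n) := by
    rw [Derivation.leibniz_pow]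
    rcases Nat.eq_zero_or_pos n with h | h
    · subst h
      simp
    · obtain ⟨m, rfl⟩ := Nat.exists_eq_succ_of_ne_zero h.ne'
      simp only [Nat.succ_eq_add_one, Nat.add_sub_cancel, smul_eq_mul, nsmul_eq_mul]
      ring
  have h := congrArg (PowerSeries.coeff N) hD
  rw [PowerSeries.coeff_mul] at h
  have hr : PowerSeries.coeff N ((n : PowerSeries ℝ) * (PowerSeries.derivative ℝ f * f ^ n)) =
      n * PowerSeries.coeff N (PowerSeries.derivative ℝ f * f ^ n) := by
    rw [← nsmul_eq_mul, map_nsmul, nsmul_eq_mul]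
  rw [hr, PowerSeries.coeff_mul] at h
  simp only [PowerSeries.coeff_derivative] at h
  rw [Nat.sum_antidiagonal_eq_sum_range_succ
    (fun i j => PowerSeries.coeff i f * (PowerSeries.coeff (j + 1) (f ^ n) * ((j : ℝ) + 1))),
    Nat.sum_antidiagonal_eq_sum_range_succ
    (fun i j => PowerSeries.coeff (i + 1) f * ((i : ℝ) + 1) * PowerSeries.coeff j (f ^ n)),
    sum_range_succ'] at h
  simp only [hf, Nat.sub_zero, one_mul] at h
  have h2 : ∑ i ∈ range N, PowerSeries.coeff (i + 1) f *
      (PowerSeries.coeff (N - (i + 1) + 1) (f ^ n) * (((N - (i + 1) : ℕ) : ℝ) + 1)) =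
      ∑ j ∈ range (N + 1), ((N : ℝ) - j) * PowerSeries.coeff (j + 1) f *
        PowerSeries.coeff (N - j) (f ^ n) := by
    rw [sum_range_succ, sub_self, zero_mul, zero_mul, add_zero]
    refine sum_congr rfl fun i hi => ?_
    have hi' : i < N := mem_range.1 hi
    have e1 : N - (i + 1) + 1 = N - i := by omega
    have e2 : (((N - (i + 1) : ℕ) : ℝ) + 1) = (N : ℝ) - i := by
      rw [Nat.cast_sub (by omega)]
      push_cast
      ring
    rw [e1, e2]
    ring
  rw [h2] at h
  have h3 : ∑ j ∈ range (N + 1), ((n : ℝ) * (j + 1) - ((N : ℝ) - j)) * PowerSeries.coeff (j + 1) f *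
        PowerSeries.coeff (N - j) (f ^ n) =
      n * ∑ k ∈ range (N + 1), PowerSeries.coeff (k + 1) f * ((k : ℝ) + 1) *
        PowerSeries.coeff (N - k) (f ^ n) - ∑ j ∈ range (N + 1), ((N : ℝ) - j) *
        PowerSeries.coeff (j + 1) f * PowerSeries.coeff (N - j) (f ^ n) := by
    rw [mul_sum, ← sum_sub_distrib]
    refine sum_congr rfl fun j _ => by ring
  rw [h3, ← h]
  ring

lemma mu_scale (k : ℝ) (l : ℕ) : mu k (2 * l) = k ^ l * mu 1 (2 * l) := by
  induction l with
  | zero => simp [mu]
  | succ l ih =>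
    have : 2 * (l + 1) = 2 * l + 2 := by ring
    rw [this, mu, mu, ih]
    ring

/-- the coefficients of the basic series -/
noncomputable def cc (j : ℕ) : ℝ := mu 1 (6 * j) / (2 * j).factorial

/-- coefficients of the `x`-th power of the basic series, for real `x` -/
noncomputable def bR (x : ℝ) : ℕ → ℝ
  | 0 => 1
  | m + 1 => (∑ j : Fin (m + 1), (x * ((j : ℕ) + 1) - ((m : ℝ) - (j : ℕ))) * cc ((j : ℕ) + 1) *
      bR x (m - (j : ℕ))) / (m + 1)
  termination_by m => m
  decreasing_by omega

/-- normalised centred moments, for real `x` -/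
noncomputable def aR (x : ℝ) : ℕ → ℝ
  | m => x ^ m * bR x m - ∑ i : Fin m, aR x (i : ℕ) * Ph (2 * (m - (i : ℕ))) (6 * (i : ℕ) + x - 1)
  termination_by m => m
  decreasing_by omega

lemma bR_zero (x : ℝ) : bR x 0 = 1 := by rw [bR]

lemma bR_succ (x : ℝ) (m : ℕ) : ((m : ℝ) + 1) * bR x (m + 1) =
    ∑ j ∈ range (m + 1), (x * (j + 1) - ((m : ℝ) - j)) * cc (j + 1) * bR x (m - j) := by
  rw [bR, mul_div_cancel₀ _ (by positivity)]
  exact Fin.sum_univ_eq_sum_range
    (fun j => (x * (j + 1) - ((m : ℝ) - j)) * cc (j + 1) * bR x (m - j)) (m + 1)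

lemma aR_eq (x : ℝ) (m : ℕ) : aR x m = x ^ m * bR x m -
    ∑ i ∈ range m, aR x i * Ph (2 * (m - i)) (6 * i + x - 1) := by
  rw [aR]
  rw [Fin.sum_univ_eq_sum_range (fun i => aR x i * Ph (2 * (m - i)) (6 * i + x - 1)) m]

lemma Ph_zero (y : ℝ) : Ph 0 y = 1 := by
  simp [Ph, mu]

lemma sum_odd_terms (m : ℕ) (g : ℕ → ℝ) (hg : ∀ i, g (2 * i) = 0) :
    ∑ a ∈ range (2 * m), g a = ∑ i ∈ range m, g (2 * i + 1) := by
  induction m with
  | zero => simp
  | succ m ih =>
    rw [show 2 * (m + 1) = 2 * m + 1 + 1 by ring, sum_range_succ, sum_range_succ, ih,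
      hg, add_zero, sum_range_succ _ m]

lemma coeff_ff (k : ℝ) (n m : ℕ) (hk : k = n) :
    PowerSeries.coeff (2 * m) (ff k ^ n) = k ^ (3 * m) * bR k m := by
  have h0 : PowerSeries.coeff 0 (ff k) = 1 := by simp [ff, mu]
  induction m using Nat.strong_induction_on with
  | _ m ih =>
    rcases Nat.eq_zero_or_pos m with hm | hm
    · subst hm
      rw [bR_zero, mul_zero, mul_zero, pow_zero, PowerSeries.coeff_zero_eq_constantCoeff, map_pow,
        ← PowerSeries.coeff_zero_eq_constantCoeff_apply, h0, one_pow, one_mul]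
    · obtain ⟨m, rfl⟩ := Nat.exists_eq_succ_of_ne_zero hm.ne'
      have h := coeff_pow_rec (ff k) h0 n (2 * m + 1)
      rw [show 2 * m + 1 + 1 = 2 * (m + 1) by ring, sum_odd_terms] at h
      · have h2 : ∀ i ∈ range (m + 1), ((n : ℝ) * (((2 * i + 1 : ℕ) : ℝ) + 1) -
            (((2 * m + 1 : ℕ) : ℝ) - ((2 * i + 1 : ℕ) : ℝ))) *
            PowerSeries.coeff (2 * i + 1 + 1) (ff k) *
            PowerSeries.coeff (2 * m + 1 - (2 * i + 1)) (ff k ^ n) =
            2 * k ^ (3 * (m + 1)) * ((k * (i + 1) - ((m : ℝ) - i)) * cc (i + 1) * bR k (m - i)) := by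
          intro i hi
          have hi' : i ≤ m := Nat.lt_succ_iff.1 (mem_range.1 hi)
          rw [show 2 * m + 1 - (2 * i + 1) = 2 * (m - i) by omega, ih (m - i) (by omega)]
          have h3 : PowerSeries.coeff (2 * i + 1 + 1) (ff k) = k ^ (3 * (i + 1)) * cc (i + 1) := by
            rw [ff, PowerSeries.coeff_mk, cc, show 3 * (2 * i + 1 + 1) = 2 * (3 * (i + 1)) by ring,
              mu_scale, show 2 * (3 * (i + 1)) = 6 * (i + 1) by ring,
              show 2 * i + 1 + 1 = 2 * (i + 1) by ring]
            ring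
          have h4 : k ^ (3 * (m + 1)) = k ^ (3 * (i + 1)) * k ^ (3 * (m - i)) := by
            rw [← pow_add]
            congr 1
            omega
          rw [h3, h4, ← hk]
          push_cast
          ring
        rw [sum_congr rfl h2, ← mul_sum, ← bR_succ] at h
        have h5 : (((2 * m + 1 : ℕ) : ℝ) + 1) = 2 * ((m : ℝ) + 1) := by
          push_cast
          ring
        rw [h5] at h
        have h6 : (2 * ((m : ℝ) + 1)) ≠ 0 := by positivity
        apply mul_left_cancel₀ h6
        rw [Nat.succ_eq_add_one, h]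
        ring
      · intro i
        have h3 : PowerSeries.coeff (2 * i + 1) (ff k) = 0 := by
          rw [ff, PowerSeries.coeff_mk, show 3 * (2 * i + 1) = 2 * (3 * i + 1) + 1 by ring, mu_odd,
            zero_div]
        rw [h3, mul_zero, zero_mul]

/-- The centred moments are given by the recursion. -/
theorem E0_pp {C : Type} [Fintype C] [DecidableEq C] [Nonempty C] (m : ℕ) :
    E0 (pp C ^ (2 * m)) / (2 * m).factorial =
      (Fintype.card C : ℝ) ^ (2 * m) * aR (Fintype.card C : ℝ) m := by
  set k : ℝ := (Fintype.card C : ℝ) with hk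
  induction m using Nat.strong_induction_on with
  | _ m ih =>
    have h := moments (C := C) (2 * m)
    rw [E0, cube_moment, coeff_ff _ _ _ rfl, ← hk, sum_even, sum_range_succ] at h
    · have h2 : ∀ i ∈ range m, E0 (pp C ^ (2 * i)) / (2 * i).factorial *
          (k ^ (2 * m - 2 * i) * Ph (2 * m - 2 * i) (3 * ((2 * i : ℕ) : ℝ) + k - 1)) =
          k ^ (2 * m) * (aR k i * Ph (2 * (m - i)) (6 * i + k - 1)) := by
        intro i hi
        have hi' : i < m := mem_range.1 hi
        rw [ih i hi']
        have e1 : k ^ (2 * m) = k ^ (2 * i) * k ^ (2 * m - 2 * i) := by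
          rw [← pow_add]
          congr 1
          omega
        rw [e1, show 2 * m - 2 * i = 2 * (m - i) by omega]
        push_cast
        ring_nf
      rw [sum_congr rfl h2, ← mul_sum] at h
      rw [Nat.sub_self, pow_zero, Ph_zero, mul_one, mul_one] at h
      rw [aR_eq]
      have e3 : k ^ (3 * m) = k ^ (2 * m) * k ^ m := by
        rw [← pow_add]
        congr 1
        omega
      rw [e3] at h
      linear_combination -h
    · intro i hi
      rw [show 2 * m - (2 * i + 1) = 2 * (m - i - 1) + 1 by omega, Ph_odd, mul_zero, mul_zero]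

end Pool.Agent.Helper6.Flow
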