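import Mathlib
import Pool.Agent.Helper6.Flow.Gauss

/-!
Recurrences for the auxiliary sums.
-/

set_option autoImplicit false

namespace Pool.Agent.Helper6.Flow

open Finset

/-- rising product with step `2` -/
noncomputable def rp (y : ℝ) (b : ℕ) : ℝ := ∏ i ∈ range b, (y + 2 * i)

lemma rp_zero (y : ℝ) : rp y 0 = 1 := by simp [rp]

lemma rp_succ (y : ℝ) (b : ℕ) : rp y (b + 1) = (y + 2 * b) * rp y b := by
  rw [rp, prod_range_succ, rp, mul_comm]

lemma rp_succ' (y : ℝ) (b : ℕ) : rp y (b + 1) = y * rp (y + 2) b := by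
  rw [rp, prod_range_succ', rp, mul_comm]
  congr 1
  · simp
  · refine prod_congr rfl fun i _ => ?_
    push_cast
    ring

lemma rp_shift (y : ℝ) (b : ℕ) : rp (y - 2) (b + 1) = rp y (b + 1) - 2 * (b + 1) * rp y b := by
  rw [rp_succ', rp_succ]
  have : y - 2 + 2 = y := by ring
  rw [this]
  ring

/-- the coefficients -/
noncomputable def tt (j b : ℕ) : ℝ :=
  3 ^ b * mu 1 (6 * j - 2 * b) / (b.factorial * (2 * j - b).factorial)

/-- the even auxiliary sums -/
noncomputable def PP (j : ℕ) (y : ℝ) : ℝ := Ph (2 * j) y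

lemma PP_eq (j : ℕ) (y : ℝ) : PP j y = ∑ b ∈ range (2 * j + 1), tt j b * rp y b := by
  rw [PP, Ph]
  refine sum_congr rfl fun b _ => ?_
  rw [tt, rp, show 3 * (2 * j) = 6 * j by ring]
  ring

lemma mu1 (n : ℕ) : mu 1 (n + 2) = (n + 1) * mu 1 n := by
  rw [mu, one_mul]

/-- common term -/
noncomputable def uu (j k : ℕ) : ℝ :=
  3 ^ k * mu 1 (6 * j + 2 - 2 * k) / (k.factorial * (2 * j + 1 - k).factorial)

lemma tt_a (j k : ℕ) (hk : k ≤ 2 * j) :
    tt j k * (6 * j + 1 - 2 * k) = (2 * j + 1 - k) * uu j k := by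
  rw [tt, uu]
  have h1 : 6 * j + 2 - 2 * k = (6 * j - 2 * k) + 2 := by omega
  have h2 : 2 * j + 1 - k = (2 * j - k) + 1 := by omega
  rw [h1, h2, mu1, Nat.factorial_succ]
  have h3 : ((6 * j - 2 * k : ℕ) : ℝ) = 6 * j - 2 * k := by
    rw [Nat.cast_sub (by omega)]
    push_cast
    ring
  have h4 : (((2 * j - k : ℕ) + 1 : ℕ) : ℝ) = 2 * j + 1 - k := by
    push_cast
    rw [Nat.cast_sub (by omega)]
    push_cast
    ring
  rw [Nat.cast_mul, h4, h3]
  have h5 : (2 * (j : ℝ) + 1 - k) ≠ 0 := by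
    have : (k : ℝ) ≤ 2 * j := by exact_mod_cast hk
    linarith
  have e1 : (k.factorial : ℝ) ≠ 0 := by positivity
  have e2 : ((2 * j - k).factorial : ℝ) ≠ 0 := by positivity
  rw [div_mul_eq_mul_div, mul_div_assoc', div_eq_div_iff (mul_ne_zero e1 e2)
    (mul_ne_zero e1 (mul_ne_zero h5 e2))]
  ring

lemma tt_b (j k : ℕ) (hk : k ≤ 2 * j) : tt j k = ((k : ℝ) + 1) / 3 * uu j (k + 1) := by
  rw [tt, uu]
  have h1 : 6 * j + 2 - 2 * (k + 1) = 6 * j - 2 * k := by omega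
  have h2 : 2 * j + 1 - (k + 1) = 2 * j - k := by omega
  rw [h1, h2, Nat.factorial_succ, pow_succ]
  have e1 : (k.factorial : ℝ) ≠ 0 := by positivity
  have e2 : ((2 * j - k).factorial : ℝ) ≠ 0 := by positivity
  push_cast
  have e3 : (k : ℝ) + 1 ≠ 0 := by positivity
  field_simp

lemma tt_c (j k : ℕ) (hk : k ≤ 2 * j + 1) :
    tt (j + 1) (k + 1) * (2 * (k + 1)) = 6 * (6 * j + 3 - 2 * k) * uu j k := by
  rw [tt, uu]
  have h1 : 6 * (j + 1) - 2 * (k + 1) = (6 * j + 2 - 2 * k) + 2 := by omega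
  have h2 : 2 * (j + 1) - (k + 1) = 2 * j + 1 - k := by omega
  rw [h1, h2, mu1, Nat.factorial_succ, pow_succ]
  have h3 : ((6 * j + 2 - 2 * k : ℕ) : ℝ) = 6 * j + 2 - 2 * k := by
    rw [Nat.cast_sub (by omega)]
    push_cast
    ring
  rw [h3]
  have e1 : (k.factorial : ℝ) ≠ 0 := by positivity
  have e2 : ((2 * j + 1 - k).factorial : ℝ) ≠ 0 := by positivity
  push_cast
  have e3 : (k : ℝ) + 1 ≠ 0 := by positivity
  field_simp
  ring

theorem PP_R2 (j : ℕ) (y : ℝ) :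
    PP (j + 1) y - PP (j + 1) (y - 2) = 18 * (6 * j + 1 + y) * PP j y := by
  have hL : PP (j + 1) y - PP (j + 1) (y - 2) =
      ∑ k ∈ range (2 * j + 2), 6 * (6 * j + 3 - 2 * k) * uu j k * rp y k := by
    rw [PP_eq, PP_eq, ← sum_sub_distrib, show 2 * (j + 1) + 1 = (2 * j + 2) + 1 by ring,
      sum_range_succ']
    simp only [rp_zero, sub_self, add_zero]
    refine sum_congr rfl fun k hk => ?_
    have hk' : k ≤ 2 * j + 1 := by have := mem_range.1 hk; omega
    rw [rp_shift, ← tt_c j k hk']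
    ring
  have hR1 : ∑ b ∈ range (2 * j + 1), tt j b * (6 * j + 1 - 2 * b) * rp y b =
      ∑ k ∈ range (2 * j + 2), (2 * j + 1 - k) * uu j k * rp y k := by
    rw [show 2 * j + 2 = (2 * j + 1) + 1 by ring, sum_range_succ _ (2 * j + 1)]
    have : (2 * (j : ℝ) + 1 - ((2 * j + 1 : ℕ) : ℝ)) = 0 := by push_cast; ring
    rw [this, zero_mul, zero_mul, add_zero]
    refine sum_congr rfl fun k hk => ?_
    rw [tt_a j k (by have := mem_range.1 hk; omega)]
  have hR2 : ∑ b ∈ range (2 * j + 1), tt j b * rp y (b + 1) =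
      ∑ k ∈ range (2 * j + 2), ((k : ℝ) / 3) * uu j k * rp y k := by
    rw [show 2 * j + 2 = (2 * j + 1) + 1 by ring, sum_range_succ' _ (2 * j + 1)]
    simp only [Nat.cast_zero, zero_div, zero_mul, add_zero]
    refine sum_congr rfl fun k hk => ?_
    rw [tt_b j k (by have := mem_range.1 hk; omega)]
    push_cast
    ring
  have hR : (6 * (j : ℝ) + 1 + y) * PP j y =
      ∑ b ∈ range (2 * j + 1), tt j b * (6 * j + 1 - 2 * b) * rp y b +
      ∑ b ∈ range (2 * j + 1), tt j b * rp y (b + 1) := by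
    rw [PP_eq, mul_sum, ← sum_add_distrib]
    refine sum_congr rfl fun b _ => ?_
    rw [rp_succ]
    ring
  rw [hL, mul_assoc, hR, hR1, hR2, ← sum_add_distrib, mul_sum]
  refine sum_congr rfl fun k _ => ?_
  ring

lemma tt_d (j k : ℕ) (hk : k + 1 ≤ 2 * j) :
    tt j (k + 1) * (2 * (k + 1) * (6 * j - 1 - 2 * k)) = tt j k * (12 * j - 6 * k) := by
  rw [tt, tt]
  have h1 : 6 * j - 2 * k = (6 * j - 2 * (k + 1)) + 2 := by omega
  have h2 : 2 * j - k = (2 * j - (k + 1)) + 1 := by omega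
  rw [h1, h2, mu1, Nat.factorial_succ, Nat.factorial_succ, pow_succ]
  have h3 : ((6 * j - 2 * (k + 1) : ℕ) : ℝ) = 6 * j - 2 * (k + 1) := by
    rw [Nat.cast_sub (by omega)]
    push_cast
    ring
  have h4 : ((2 * j - (k + 1) + 1 : ℕ) : ℝ) = 2 * j - k := by
    push_cast
    rw [Nat.cast_sub (by omega)]
    push_cast
    ring
  rw [Nat.cast_mul (2 * j - (k + 1) + 1), h4, h3]
  have h5 : (2 * (j : ℝ) - k) ≠ 0 := by
    have : ((k : ℝ) + 1) ≤ 2 * j := by exact_mod_cast hk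
    linarith
  have e1 : (k.factorial : ℝ) ≠ 0 := by positivity
  have e2 : ((2 * j - (k + 1)).factorial : ℝ) ≠ 0 := by positivity
  push_cast
  have e3 : (k : ℝ) + 1 ≠ 0 := by positivity
  field_simp
  ring

theorem PP_R3 (j : ℕ) (y : ℝ) :
    2 * y * PP j (y + 2) = (6 * j + 1 + y) * PP j y + (6 * j - 1 + y) * PP j (y - 2) := by
  have hZ : ∑ b ∈ range (2 * j + 1), tt j b * (12 * j - 6 * b) * rp y b =
      ∑ b ∈ range (2 * j + 1), tt j b * (2 * b * (6 * j + 1 - 2 * b)) * rp y (b - 1) := by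
    rw [sum_range_succ, sum_range_succ' _ (2 * j)]
    have h0 : (12 * (j : ℝ) - 6 * ((2 * j : ℕ) : ℝ)) = 0 := by push_cast; ring
    simp only [h0, mul_zero, zero_mul, add_zero, Nat.cast_zero]
    refine sum_congr rfl fun k hk => ?_
    rw [← tt_d j k (by have := mem_range.1 hk; omega), Nat.add_sub_cancel]
    push_cast
    ring
  have hterm : ∀ b : ℕ, (6 * (j : ℝ) + 1 + y) * rp y b + (6 * j - 1 + y) * rp (y - 2) b =
      2 * (y * rp (y + 2) b) + ((12 * j - 6 * b) * rp y b -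
        2 * b * (6 * j + 1 - 2 * b) * rp y (b - 1)) := by
    intro b
    rw [← rp_succ']
    cases b with
    | zero =>
      rw [rp_succ, rp_zero, rp_zero]
      push_cast
      ring
    | succ b =>
      rw [rp_shift, rp_succ y (b + 1), rp_succ y b, Nat.add_sub_cancel]
      push_cast
      ring
  rw [PP_eq, PP_eq, PP_eq, mul_sum, mul_sum, mul_sum, ← sum_add_distrib]
  have h1 : ∀ b ∈ range (2 * j + 1), (6 * (j : ℝ) + 1 + y) * (tt j b * rp y b) +
      (6 * j - 1 + y) * (tt j b * rp (y - 2) b) = 2 * y * (tt j b * rp (y + 2) b) +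
      (tt j b * (12 * j - 6 * b) * rp y b -
        tt j b * (2 * b * (6 * j + 1 - 2 * b)) * rp y (b - 1)) := by
    intro b _
    linear_combination (tt j b) * hterm b
  rw [sum_congr rfl h1, sum_add_distrib, sum_sub_distrib, hZ, sub_self, add_zero]

theorem PP_R4 (j : ℕ) (y : ℝ) :
    ((j : ℝ) + 1) * PP (j + 1) y = 3 * (6 * j + y + 1) * (6 * j + y + 4) * PP j y +
      3 / 2 * (6 * j + y + 3) * (6 * j + y - 1) * PP j (y - 2) := by
  have h1 := PP_R2 j (y + 2)
  have h2 := PP_R3 (j + 1) y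
  have h3 := PP_R2 j y
  have h4 := PP_R3 j y
  have e : y + 2 - 2 = y := by ring
  rw [e] at h1
  push_cast at h2
  linear_combination (y / 6) * h1 - (1 / 12) * h2 + (6 * j + 5 + y) / 12 * h3 +
    (3 / 2 * (6 * j + 3 + y)) * h4

lemma PP_zero (y : ℝ) : PP 0 y = 1 := by
  rw [PP_eq]
  simp [tt, rp, mu]

end Pool.Agent.Helper6.Flow
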