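/-!
The integer program. It is written with recursors, so that the kernel can evaluate it quickly.
-/

set_option autoImplicit false

namespace Pool.Agent.Helper6.Flow.Prog

/-- evaluate a number before it is used -/
noncomputable def seqN {β : Type} (n : Nat) (f : Nat → β) : β :=
  @Nat.rec (fun _ => β) (f 0) (fun m _ => f (Nat.succ m)) n

/-- lazy conjunction -/
noncomputable def chk (b : Bool) (x : Bool) : Bool :=
  @Bool.rec (fun _ => Bool) false x b

noncomputable def h0 (r : Nat) (ds : List Nat) : List Nat → Nat :=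
  @List.rec Nat (fun _ => List Nat → Nat)
    (fun _ => 0)
    (fun d _ ih bs =>
      @List.rec Nat (fun _ => Nat) 0
        (fun b bs' _ => Nat.add (Nat.mul d b) (Nat.mul r (ih bs'))) bs) ds

noncomputable def h1 (r : Nat) (ds : List Nat) : List Nat → Nat → Nat :=
  @List.rec Nat (fun _ => List Nat → Nat → Nat)
    (fun _ _ => 0)
    (fun d _ ih bs j =>
      @List.rec Nat (fun _ => Nat) 0
        (fun b bs' _ => Nat.add (Nat.mul j (Nat.mul d b)) (Nat.mul r (ih bs' (Nat.succ j)))) bs) ds

noncomputable def dot1 {β : Type} (k : Nat → β) (ds : List Nat) : List Nat → Nat → β :=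
  @List.rec Nat (fun _ => List Nat → Nat → β)
    (fun _ s => k s)
    (fun d _ ih bs s =>
      @List.rec Nat (fun _ => β) (k s)
        (fun b bs' _ => seqN (Nat.add (Nat.mul 2 s) (Nat.mul d b)) fun s' => ih bs' s') bs) ds

noncomputable def step0 (c x : Nat) (v2s : List Nat) : List Nat → List Nat :=
  @List.rec Nat (fun _ => List Nat → List Nat)
    (fun _ => [x])
    (fun v2 _ ih v0s =>
      @List.rec Nat (fun _ => List Nat) [x]
        (fun v0 v0s' _ => seqN (Nat.add v2 (Nat.mul c v0)) fun w => w :: ih v0s') v0s) v2s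

noncomputable def step1 (c : Nat) (ws : List Nat) : List Nat → List Nat :=
  @List.rec Nat (fun _ => List Nat → List Nat)
    (fun _ => [])
    (fun w _ ih vs =>
      @List.rec Nat (fun _ => List Nat) []
        (fun v vs' _ => seqN (Nat.add w (Nat.mul c v)) fun u => u :: ih vs') vs) ws

noncomputable def tl (l : List Nat) : List Nat :=
  @List.rec Nat (fun _ => List Nat) [] (fun _ t _ => t) l

/-- the list of the scaled coefficients -/
noncomputable def mkD (fuel : Nat) : Nat → Nat → List Nat :=
  @Nat.rec (fun _ => Nat → Nat → List Nat)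
    (fun _ _ => [])
    (fun _ ih j cp =>
      seqN (cp*(4*(6*j-1)*(6*j-3)*(6*j-5))/(2*j*(2*j-1))) fun cp' =>
       cp' :: ih (Nat.succ j) cp') fuel

/-- check of this list -/
noncomputable def chkD (fuel : Nat) : List Nat → Nat → Nat → Bool :=
  @Nat.rec (fun _ => List Nat → Nat → Nat → Bool)
    (fun _ _ _ => true)
    (fun _ ih ds j cp =>
      @List.rec Nat (fun _ => Bool) false
        (fun d t _ => chk (Nat.beq (d*(2*j*(2*j-1))) (cp*(4*(6*j-1)*(6*j-3)*(6*j-5))))
          (ih t (Nat.succ j) d)) ds) fuel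

/-- one round of the program -/
noncomputable def body (p r : Nat) (ds : List Nat)
    (ih : Nat → Nat → Nat → Nat → Nat → List Nat → List Nat → List Nat → List Nat → List Nat → Bool)
    (m pm rm X W : Nat) (b a V0 V1 V2 : List Nat) : Bool :=
      seqN (Nat.succ m) fun M =>
      seqN (h0 r ds b) fun S0 => seqN (h1 r ds b 1) fun S1 =>
      seqN (((p + r) * S1 - r * M * S0) / M) fun bm =>
      chk (Nat.beq (M * bm + r * M * S0) ((p + r) * S1)) (
      seqN (6 * m * r + p) fun u =>
      seqN ((12 * u * (u + 3 * r) * X + 6 * (u + 2 * r) * (u - 2 * r) * W) / M) fun Xn =>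
      chk (Nat.beq (M * Xn) (12 * u * (u + 3 * r) * X + 6 * (u + 2 * r) * (u - 2 * r) * W)) (
      seqN (Xn - 72 * r * u * X) fun Wn =>
      chk (Nat.beq (Wn + 72 * r * u * X) Xn) (
      seqN (72 * r * u) fun c0 =>
      seqN (c0 + 144 * r * r) fun c1 =>
      seqN (c1 + 144 * r * r) fun c2 =>
      seqN (pm * p) fun pm' => seqN (rm * 2) fun rm' =>
      (fun N0 => (fun N1 => (fun N2 =>
        dot1 (fun s =>
          @Bool.rec (fun _ => Bool)
            (Nat.ble (pm' * bm + 1) s)
            (seqN ((pm' * bm - s) / rm') fun am =>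
              chk (Nat.beq (rm' * am + s) (pm' * bm))
                (ih M pm' rm' Xn Wn (bm :: b) (am :: a) N0 N1 N2))
            (Nat.ble s (pm' * bm)))
          a (tl N0) 0)
        (1 :: step1 c2 (tl N1) V2))
        (1 :: step1 c1 (tl N0) V1))
        (1 :: step0 c0 Xn (tl V2) V0))))

noncomputable def loop (p r : Nat) (ds : List Nat) (fuel : Nat) :
    Nat → Nat → Nat → Nat → Nat → List Nat → List Nat → List Nat → List Nat → List Nat → Bool :=
  @Nat.rec (fun _ => Nat → Nat → Nat → Nat → Nat → List Nat → List Nat → List Nat → List Nat →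
      List Nat → Bool)
    (fun _ _ _ _ _ _ _ _ _ _ => false)
    (fun _ ih => body p r ds ih)
    fuel

noncomputable def run (p r M : Nat) : Bool :=
  chk (chkD M (mkD M 1 1) 1 1)
    (loop p r (mkD M 1 1) M 0 1 1 1 1 [1] [1] [1] [1] [1])

end Pool.Agent.Helper6.Flow.Prog
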