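import Mathlib
import Pool.Agent.Helper6.Flow.Prog
import Pool.Agent.Helper6.Flow.Phi
import Pool.Agent.Helper6.Flow.Coeff

/-!
Soundness of the integer program.
-/

set_option autoImplicit false

namespace Pool.Agent.Helper6.Flow

open Finset Prog

lemma seqN_eq {β : Type} (n : ℕ) (f : ℕ → β) : seqN n f = f n := by
  cases n <;> rfl

lemma chk_eq (b x : Bool) (h : chk b x = true) : b = true ∧ x = true := by
  cases b
  · exact absurd h (by simp [chk])
  · exact ⟨rfl, h⟩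

/-- the list `l` is `f n, ..., f 0` -/
def Desc (f : ℕ → ℝ) : ℕ → List ℕ → Prop
  | 0, l => ∃ x : ℕ, l = [x] ∧ (x : ℝ) = f 0
  | n + 1, l => ∃ (x : ℕ) (t : List ℕ), l = x :: t ∧ (x : ℝ) = f (n + 1) ∧ Desc f n t

/-- the list `l` begins with `f j, f (j+1), ...` (`n` terms) -/
def Asc (f : ℕ → ℝ) : ℕ → ℕ → List ℕ → Prop
  | _, 0, _ => True
  | j, n + 1, l => ∃ (x : ℕ) (t : List ℕ), l = x :: t ∧ (x : ℝ) = f j ∧ Asc f (j + 1) n t

lemma Asc.mono {f : ℕ → ℝ} : ∀ {n n' j : ℕ} {l : List ℕ}, n' ≤ n → Asc f j n l → Asc f j n' l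
  | _, 0, _, _, _, _ => trivial
  | 0, n' + 1, _, _, h, _ => absurd h (by omega)
  | n + 1, n' + 1, j, l, h, ha => by
    obtain ⟨x, t, rfl, hx, ht⟩ := ha
    exact ⟨x, t, rfl, hx, ht.mono (by omega)⟩

lemma Desc.congr {f g : ℕ → ℝ} : ∀ {n : ℕ} {l : List ℕ}, (∀ i ≤ n, f i = g i) → Desc f n l →
    Desc g n l
  | 0, l, h, hd => by
    obtain ⟨x, rfl, hx⟩ := hd
    exact ⟨x, rfl, by rw [hx, h 0 le_rfl]⟩
  | n + 1, l, h, hd => by
    obtain ⟨x, t, rfl, hx, ht⟩ := hd
    exact ⟨x, t, rfl, by rw [hx, h (n + 1) le_rfl], ht.congr fun i hi => h i (by omega)⟩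

lemma h0_spec (r : ℕ) (f g : ℕ → ℝ) : ∀ (n j : ℕ) (ds bs : List ℕ), Asc f j (n + 1) ds →
    Desc g n bs → ((h0 r ds bs : ℕ) : ℝ) = ∑ i ∈ range (n + 1), (r : ℝ) ^ i * (f (j + i) * g (n - i)) := by
  intro n
  induction n with
  | zero =>
    intro j ds bs ha hd
    obtain ⟨d, t, rfl, hx, _⟩ := ha
    obtain ⟨b, rfl, hb⟩ := hd
    have h : h0 r (d :: t) [b] = Nat.add (Nat.mul d b) (Nat.mul r (h0 r t [])) := rfl
    have h' : h0 r t [] = 0 := by cases t <;> rfl
    rw [h, h']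
    simp [hx, hb]
  | succ n ih =>
    intro j ds bs ha hd
    obtain ⟨d, t, rfl, hx, ht⟩ := ha
    obtain ⟨b, bs', rfl, hb, hbs⟩ := hd
    have h : h0 r (d :: t) (b :: bs') = Nat.add (Nat.mul d b) (Nat.mul r (h0 r t bs')) := rfl
    rw [h, sum_range_succ']
    have := ih (j + 1) t bs' ht hbs
    simp only [Nat.add_eq, Nat.mul_eq]
    push_cast
    rw [this, hx, hb, mul_sum, add_comm]
    congr 1
    · refine sum_congr rfl fun i _ => ?_
      rw [show j + 1 + i = j + (i + 1) by ring]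
      ring
    · simp

lemma h1_spec (r : ℕ) (f g : ℕ → ℝ) : ∀ (n j : ℕ) (ds bs : List ℕ), Asc f j (n + 1) ds →
    Desc g n bs → ((h1 r ds bs j : ℕ) : ℝ) =
      ∑ i ∈ range (n + 1), (r : ℝ) ^ i * (((j : ℝ) + i) * (f (j + i) * g (n - i))) := by
  intro n
  induction n with
  | zero =>
    intro j ds bs ha hd
    obtain ⟨d, t, rfl, hx, _⟩ := ha
    obtain ⟨b, rfl, hb⟩ := hd
    have h : h1 r (d :: t) [b] j = Nat.add (Nat.mul j (Nat.mul d b))
      (Nat.mul r (h1 r t [] (Nat.succ j))) := rfl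
    have h' : h1 r t [] (Nat.succ j) = 0 := by cases t <;> rfl
    rw [h, h']
    simp [hx, hb]
  | succ n ih =>
    intro j ds bs ha hd
    obtain ⟨d, t, rfl, hx, ht⟩ := ha
    obtain ⟨b, bs', rfl, hb, hbs⟩ := hd
    have h : h1 r (d :: t) (b :: bs') j = Nat.add (Nat.mul j (Nat.mul d b))
      (Nat.mul r (h1 r t bs' (Nat.succ j))) := rfl
    rw [h, sum_range_succ']
    have := ih (j + 1) t bs' ht hbs
    simp only [Nat.add_eq, Nat.mul_eq, Nat.succ_eq_add_one]
    push_cast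
    rw [this, hx, hb, mul_sum, add_comm]
    congr 1
    · refine sum_congr rfl fun i _ => ?_
      rw [show j + 1 + i = j + (i + 1) by ring]
      push_cast
      ring
    · simp

lemma dot1_spec {β : Type} (k : ℕ → β) (f g : ℕ → ℝ) : ∀ (n : ℕ) (as vs : List ℕ) (s : ℕ),
    Desc f n as → Desc g n vs → ∃ t : ℕ, dot1 k as vs s = k t ∧
      (t : ℝ) = 2 ^ (n + 1) * s + ∑ i ∈ range (n + 1), 2 ^ i * (f i * g i) := by
  intro n
  induction n with
  | zero =>
    intro as vs s ha hv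
    obtain ⟨a, rfl, ha⟩ := ha
    obtain ⟨v, rfl, hv⟩ := hv
    refine ⟨Nat.add (Nat.mul 2 s) (Nat.mul a v), ?_, ?_⟩
    · have : dot1 k [a] [v] s = seqN (Nat.add (Nat.mul 2 s) (Nat.mul a v))
        (fun s' => dot1 k [] [] s') := rfl
      rw [this, seqN_eq]
      rfl
    · simp only [Nat.add_eq, Nat.mul_eq]
      push_cast
      rw [ha, hv]
      simp
  | succ n ih =>
    intro as vs s ha hv
    obtain ⟨a, as', rfl, ha, has⟩ := ha
    obtain ⟨v, vs', rfl, hv, hvs⟩ := hv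
    obtain ⟨t, ht, htv⟩ := ih as' vs' (Nat.add (Nat.mul 2 s) (Nat.mul a v)) has hvs
    refine ⟨t, ?_, ?_⟩
    · have : dot1 k (a :: as') (v :: vs') s = seqN (Nat.add (Nat.mul 2 s) (Nat.mul a v))
        (fun s' => dot1 k as' vs' s') := rfl
      rw [this, seqN_eq, ht]
    · rw [htv, sum_range_succ _ (n + 1)]
      simp only [Nat.add_eq, Nat.mul_eq]
      push_cast
      rw [ha, hv]
      ring

/-- the list without its first entry -/
def Desc' (f : ℕ → ℝ) : ℕ → List ℕ → Prop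
  | 0, l => l = []
  | n + 1, l => Desc f n l

lemma Desc.tl {f : ℕ → ℝ} : ∀ {n : ℕ} {l : List ℕ}, Desc f n l → Desc' f n (tl l)
  | 0, l, hd => by
    obtain ⟨x, rfl, _⟩ := hd
    rfl
  | n + 1, l, hd => by
    obtain ⟨x, t, rfl, _, ht⟩ := hd
    exact ht

lemma step0_spec (c x : ℕ) (f0 f2 g : ℕ → ℝ) (hx : (x : ℝ) = g 0) :
    ∀ (n : ℕ) (v2s v0s : List ℕ), Desc' f2 n v2s → Desc f0 n v0s →
    (∀ i < n, g (i + 1) = f2 i + c * f0 (i + 1)) → Desc g n (step0 c x v2s v0s) := by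
  intro n
  induction n with
  | zero =>
    intro v2s v0s h2 _ _
    have : v2s = [] := h2
    subst this
    exact ⟨x, rfl, hx⟩
  | succ n ih =>
    intro v2s v0s h2 h0 hg
    obtain ⟨v0, v0s', rfl, hv0, hv0s⟩ := h0
    have h2' : ∃ (v2 : ℕ) (v2s' : List ℕ), v2s = v2 :: v2s' ∧ (v2 : ℝ) = f2 n ∧
        Desc' f2 n v2s' := by
      cases n with
      | zero =>
        obtain ⟨y, rfl, hy⟩ := h2
        exact ⟨y, [], rfl, hy, rfl⟩
      | succ n =>
        obtain ⟨y, t, rfl, hy, ht⟩ := h2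
        exact ⟨y, t, rfl, hy, ht⟩
    obtain ⟨v2, v2s', rfl, hv2, hv2s⟩ := h2'
    have : step0 c x (v2 :: v2s') (v0 :: v0s') = seqN (Nat.add v2 (Nat.mul c v0))
      (fun w => w :: step0 c x v2s' v0s') := rfl
    rw [this, seqN_eq]
    refine ⟨_, _, rfl, ?_, ih v2s' v0s' hv2s hv0s fun i hi => hg i (by omega)⟩
    simp only [Nat.add_eq, Nat.mul_eq]
    push_cast
    rw [hg n (by omega), hv2, hv0]

lemma step1_spec (c : ℕ) (f0 f1 g : ℕ → ℝ) :
    ∀ (n : ℕ) (ws vs : List ℕ), Desc f0 n ws → Desc f1 n vs →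
    (∀ i ≤ n, g i = f0 i + c * f1 i) → Desc g n (step1 c ws vs) := by
  intro n
  induction n with
  | zero =>
    intro ws vs h0 h1 hg
    obtain ⟨w, rfl, hw⟩ := h0
    obtain ⟨v, rfl, hv⟩ := h1
    have : step1 c [w] [v] = seqN (Nat.add w (Nat.mul c v)) (fun u => u :: step1 c [] []) := rfl
    rw [this, seqN_eq]
    refine ⟨_, rfl, ?_⟩
    simp only [Nat.add_eq, Nat.mul_eq]
    push_cast
    rw [hg 0 le_rfl, hw, hv]
  | succ n ih =>
    intro ws vs h0 h1 hg
    obtain ⟨w, ws', rfl, hw, hws⟩ := h0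
    obtain ⟨v, vs', rfl, hv, hvs⟩ := h1
    have : step1 c (w :: ws') (v :: vs') = seqN (Nat.add w (Nat.mul c v))
      (fun u => u :: step1 c ws' vs') := rfl
    rw [this, seqN_eq]
    refine ⟨_, _, rfl, ?_, ih ws' vs' hws hvs fun i hi => hg i (by omega)⟩
    simp only [Nat.add_eq, Nat.mul_eq]
    push_cast
    rw [hg (n + 1) le_rfl, hw, hv]


section Spec

variable (p r : ℕ)

/-- the rational point as a real number -/
noncomputable def xx : ℝ := (p : ℝ) / r

noncomputable def cS (j : ℕ) : ℝ := 4 ^ j * cc j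

noncomputable def bS (m : ℕ) : ℝ := (4 * (r : ℝ)) ^ m * bR (xx p r) m

noncomputable def aS (m : ℕ) : ℝ := (2 * (r : ℝ) ^ 2) ^ m * aR (xx p r) m

noncomputable def VS (c : ℝ) (m i : ℕ) : ℝ :=
  (4 * (r : ℝ) ^ 2) ^ (m - i) * PP (m - i) (6 * i + xx p r - 1 + 2 * c)

variable {p r}

lemma xx_mul (hr : 0 < r) : xx p r * r = p := by
  rw [xx, div_mul_cancel₀]
  positivity

lemma bS_rec (hr : 0 < r) (m : ℕ) :
    ((m : ℝ) + 1) * bS p r (m + 1) + r * (m + 1) *
      (∑ i ∈ range (m + 1), (r : ℝ) ^ i * (cS (1 + i) * bS p r (m - i))) =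
    (p + r) * ∑ i ∈ range (m + 1), (r : ℝ) ^ i * ((((1 : ℕ) : ℝ) + i) * (cS (1 + i) * bS p r (m - i))) := by
  have h := bR_succ (xx p r) m
  have hx := xx_mul (p := p) hr
  have h1 : ((m : ℝ) + 1) * bS p r (m + 1) = (4 * (r : ℝ)) ^ (m + 1) *
      (((m : ℝ) + 1) * bR (xx p r) (m + 1)) := by
    rw [bS]; ring
  rw [h1, h, mul_sum, mul_sum, mul_sum, ← sum_add_distrib]
  refine sum_congr rfl fun j hj => ?_
  have hj' : j ≤ m := Nat.lt_succ_iff.1 (mem_range.1 hj)
  have h2 : (4 * (r : ℝ)) ^ (m + 1) = (4 ^ (1 + j) * (r ^ j * r)) * (4 * (r : ℝ)) ^ (m - j) := by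
    rw [← pow_succ, add_comm 1 j, ← mul_pow, ← pow_add]
    congr 1
    omega
  rw [h2, bS, cS, add_comm 1 j]
  push_cast
  linear_combination ((4 : ℝ) ^ (j + 1) * r ^ j * (4 * (r : ℝ)) ^ (m - j) * ((j + 1) * cc (j + 1) *
    bR (xx p r) (m - j))) * hx

lemma aS_rec (hr : 0 < r) (m : ℕ) :
    2 ^ m * aS p r m = p ^ m * bS p r m -
      ∑ i ∈ range m, 2 ^ i * (aS p r i * VS p r 0 m i) := by
  have h := aR_eq (xx p r) m
  have hx := xx_mul (p := p) hr
  have h1 : 2 ^ m * aS p r m = (4 * (r : ℝ) ^ 2) ^ m * aR (xx p r) m := by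
    rw [aS, ← mul_assoc, ← mul_pow]
    congr 2
    ring
  have h2 : (p : ℝ) ^ m * bS p r m = (4 * (r : ℝ) ^ 2) ^ m * ((xx p r) ^ m * bR (xx p r) m) := by
    rw [bS, ← mul_assoc, ← mul_assoc, ← mul_pow, ← mul_pow, ← hx]
    congr 2
    ring
  rw [h1, h2, h, mul_sub, mul_sum]
  congr 1
  refine sum_congr rfl fun i hi => ?_
  have hi' : i < m := mem_range.1 hi
  have h3 : (4 * (r : ℝ) ^ 2) ^ m = (2 ^ i * (2 * (r : ℝ) ^ 2) ^ i) * (4 * (r : ℝ) ^ 2) ^ (m - i) := by
    rw [← mul_pow, show (2 : ℝ) * (2 * r ^ 2) = 4 * r ^ 2 by ring, ← pow_add]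
    congr 1
    omega
  rw [h3, aS, VS, PP, mul_zero, add_zero]
  ring

lemma VS_rec (hr : 0 < r) (c : ℝ) (m i : ℕ) (hi : i ≤ m) :
    VS p r c (m + 1) i = VS p r (c - 1) (m + 1) i +
      (72 * r * (6 * m * r + p) + 144 * r * r * c) * VS p r c m i := by
  have hx := xx_mul (p := p) hr
  obtain ⟨j, rfl⟩ : ∃ j, m = i + j := ⟨m - i, by omega⟩
  rw [VS, VS, VS]
  rw [show i + j + 1 - i = j + 1 by omega, show i + j - i = j by omega]
  have h := PP_R2 j (6 * (i : ℝ) + xx p r - 1 + 2 * c)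
  have e : 6 * (i : ℝ) + xx p r - 1 + 2 * c - 2 = 6 * (i : ℝ) + xx p r - 1 + 2 * (c - 1) := by
    ring
  rw [e] at h
  push_cast
  rw [← hx]
  linear_combination (4 * (r : ℝ) ^ 2) ^ (j + 1) * h

lemma VS_shift (m i : ℕ) : VS p r (0 - 1) (m + 1) (i + 1) = VS p r 2 m i := by
  rw [VS, VS, show m + 1 - (i + 1) = m - i by omega]
  congr 2
  push_cast
  ring

lemma VS_top (c : ℝ) (m : ℕ) : VS p r c m m = 1 := by
  rw [VS, Nat.sub_self, pow_zero, PP_zero, one_mul]

lemma X_rec (hr : 0 < r) (m : ℕ) :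
    ((m : ℝ) + 1) * VS p r 0 (m + 1) 0 =
      12 * (6 * m * r + p) * ((6 * m * r + p) + 3 * r) * VS p r 0 m 0 +
      6 * ((6 * m * r + p) + 2 * r) * ((6 * m * r + p) - 2 * r) * VS p r (0 - 1) m 0 := by
  have hx := xx_mul (p := p) hr
  have h := PP_R4 m (xx p r - 1)
  rw [VS, VS, VS]
  simp only [Nat.sub_zero, Nat.cast_zero, mul_zero, zero_add, add_zero]
  have e : xx p r - 1 + 2 * (0 - 1) = xx p r - 1 - 2 := by ring
  rw [e, ← hx]
  linear_combination (4 * (r : ℝ) ^ 2) ^ (m + 1) * h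

lemma tl_cons (x : ℕ) (l : List ℕ) : tl (x :: l) = l := rfl

theorem loop_sound (hr : 0 < r) (hp : 2 * r ≤ p) (ds : List ℕ) (K : ℕ) (hds : Asc cS 1 K ds) :
    ∀ (fuel m pm rm X W : ℕ) (b a V0 V1 V2 : List ℕ), m + fuel ≤ K →
    (pm : ℝ) = (p : ℝ) ^ m → (rm : ℝ) = 2 ^ m → (X : ℝ) = VS p r 0 m 0 →
    (W : ℝ) = VS p r (0 - 1) m 0 → Desc (bS p r) m b → Desc (aS p r) m a →
    Desc (VS p r 0 m) m V0 → Desc (VS p r 1 m) m V1 → Desc (VS p r 2 m) m V2 →
    loop p r ds fuel m pm rm X W b a V0 V1 V2 = true → ∃ n, aR (xx p r) n < 0 := by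
  intro fuel
  induction fuel with
  | zero =>
    intro m pm rm X W b a V0 V1 V2 _ _ _ _ _ _ _ _ _ _ h
    exact absurd h (by simp [loop])
  | succ fuel ih =>
    intro m pm rm X W b a V0 V1 V2 hK hpm hrm hX hW hbl hal hV0 hV1 hV2 h
    have hb : body p r ds (loop p r ds fuel) m pm rm X W b a V0 V1 V2 = true := h
    clear h
    unfold body at hb
    simp only [seqN_eq] at hb
    replace hb := chk_eq _ _ hb
    obtain ⟨hb1, hb⟩ := hb
    replace hb := chk_eq _ _ hb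
    obtain ⟨hx1, hb⟩ := hb
    replace hb := chk_eq _ _ hb
    obtain ⟨hw1, hb⟩ := hb
    generalize hbm : ((p + r) * h1 r ds b 1 - r * m.succ * h0 r ds b) / m.succ = bm at hb1 hb
    generalize hXn : (12 * (6 * m * r + p) * (6 * m * r + p + 3 * r) * X +
        6 * (6 * m * r + p + 2 * r) * (6 * m * r + p - 2 * r) * W) / m.succ = Xn at hx1 hw1 hb
    generalize hWn : Xn - 72 * r * (6 * m * r + p) * X = Wn at hw1 hb
    clear hbm hXn hWn
    simp only [tl_cons] at hb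
    replace hb1 := Nat.eq_of_beq_eq_true hb1
    replace hx1 := Nat.eq_of_beq_eq_true hx1
    replace hw1 := Nat.eq_of_beq_eq_true hw1
    -- real versions
    have hAsc : Asc cS 1 (m + 1) ds := hds.mono (by omega)
    have hS0 := h0_spec r cS (bS p r) m 1 ds b hAsc hbl
    have hS1 := h1_spec r cS (bS p r) m 1 ds b hAsc hbl
    have hm1 : ((m : ℝ) + 1) ≠ 0 := by positivity
    have hbmR : (bm : ℝ) = bS p r (m + 1) := by
      have h2 := bS_rec (p := p) hr m
      rw [← hS0, ← hS1] at h2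
      have h3 : ((m.succ * bm + r * m.succ * h0 r ds b : ℕ) : ℝ) =
          (((p + r) * h1 r ds b 1 : ℕ) : ℝ) := by rw [hb1]
      push_cast at h3
      apply mul_left_cancel₀ hm1
      linear_combination h3 - h2
    have hXnR : (Xn : ℝ) = VS p r 0 (m + 1) 0 := by
      have h2 := X_rec (p := p) hr m
      rw [← hX, ← hW] at h2
      have h3 : ((m.succ * Xn : ℕ) : ℝ) =
          ((12 * (6 * m * r + p) * (6 * m * r + p + 3 * r) * X +
          6 * (6 * m * r + p + 2 * r) * (6 * m * r + p - 2 * r) * W : ℕ) : ℝ) := by rw [hx1]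
      have h4 : ((6 * m * r + p - 2 * r : ℕ) : ℝ) = 6 * m * r + p - 2 * r := by
        rw [Nat.cast_sub (by omega)]
        push_cast
        ring
      rw [Nat.cast_add, Nat.cast_mul _ W, Nat.cast_mul _ (6 * m * r + p - 2 * r), h4] at h3
      push_cast at h3
      apply mul_left_cancel₀ hm1
      linear_combination h3 - h2
    have hWnR : (Wn : ℝ) = VS p r (0 - 1) (m + 1) 0 := by
      have h2 := VS_rec (p := p) hr 0 m 0 (Nat.zero_le _)
      rw [← hX, ← hXnR] at h2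
      have h3 : ((Wn + 72 * r * (6 * m * r + p) * X : ℕ) : ℝ) = (Xn : ℝ) := by rw [hw1]
      push_cast at h3
      linear_combination h3 + h2
    -- the new lists
    have D0 : Desc (VS p r 0 (m + 1)) m
        (step0 (72 * r * (6 * m * r + p)) Xn (tl V2) V0) := by
      refine step0_spec _ _ (VS p r 0 m) (VS p r 2 m) _ hXnR m _ _ hV2.tl hV0 ?_
      intro i hi
      rw [VS_rec hr 0 m (i + 1) (by omega), VS_shift]
      push_cast
      ring
    generalize step0 (72 * r * (6 * m * r + p)) Xn (tl V2) V0 = L0 at hb D0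
    have D1 : Desc (VS p r 1 (m + 1)) m
        (step1 (72 * r * (6 * m * r + p) + 144 * r * r) L0 V1) := by
      refine step1_spec _ _ _ _ m _ _ D0 hV1 ?_
      intro i hi
      rw [VS_rec hr 1 m i hi, sub_self]
      push_cast
      ring
    generalize step1 (72 * r * (6 * m * r + p) + 144 * r * r) L0 V1 = L1 at hb D1
    have D2 : Desc (VS p r 2 (m + 1)) m
        (step1 (72 * r * (6 * m * r + p) + 144 * r * r + 144 * r * r) L1 V2) := by
      refine step1_spec _ _ _ _ m _ _ D1 hV2 ?_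
      intro i hi
      rw [VS_rec hr 2 m i hi, show (2 : ℝ) - 1 = 1 by norm_num]
      push_cast
      ring
    generalize step1 (72 * r * (6 * m * r + p) + 144 * r * r + 144 * r * r) L1 V2 = L2 at hb D2
    -- the dot product
    have E0' : Desc (VS p r 0 (m + 1)) (m + 1) (1 :: L0) :=
      ⟨1, L0, rfl, by rw [VS_top]; norm_num, D0⟩
    have E1' : Desc (VS p r 1 (m + 1)) (m + 1) (1 :: L1) :=
      ⟨1, L1, rfl, by rw [VS_top]; norm_num, D1⟩
    have E2' : Desc (VS p r 2 (m + 1)) (m + 1) (1 :: L2) :=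
      ⟨1, L2, rfl, by rw [VS_top]; norm_num, D2⟩
    obtain ⟨t, ht, htR⟩ := dot1_spec _ (aS p r) (VS p r 0 (m + 1)) m a L0 0 hal D0
    rw [ht] at hb
    have hrec := aS_rec (p := p) hr (m + 1)
    have htR' : (t : ℝ) = ∑ i ∈ range (m + 1), 2 ^ i * (aS p r i * VS p r 0 (m + 1) i) := by
      rw [htR]
      simp
    rw [← htR', ← hbmR] at hrec
    have hpm' : ((pm * p : ℕ) : ℝ) = (p : ℝ) ^ (m + 1) := by
      push_cast
      rw [hpm, pow_succ]
    have hrm' : ((rm * 2 : ℕ) : ℝ) = 2 ^ (m + 1) := by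
      push_cast
      rw [hrm, pow_succ]
    rw [← hpm', ← hrm'] at hrec
    cases hle : Nat.ble t (pm * p * bm) with
    | false =>
      rw [hle] at hb
      have hlt : pm * p * bm < t := by
        by_contra hcon
        push Not at hcon
        rw [Nat.ble_eq_true_of_le hcon] at hle
        exact absurd hle (by decide)
      refine ⟨m + 1, ?_⟩
      have h5 : (((pm * p * bm : ℕ)) : ℝ) < t := by exact_mod_cast hlt
      have h6 : ((rm * 2 : ℕ) : ℝ) * aS p r (m + 1) < 0 := by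
        rw [hrec]
        push_cast at h5 ⊢
        linarith
      rw [hrm', aS] at h6
      have h7 : (0 : ℝ) < 2 ^ (m + 1) * (2 * (r : ℝ) ^ 2) ^ (m + 1) := by positivity
      by_contra hcon
      push Not at hcon
      have := mul_nonneg h7.le hcon
      linarith
    | true =>
      rw [hle] at hb
      have hb2 := chk_eq _ _ hb
      obtain ⟨ha1, hb3⟩ := hb2
      generalize hAm : (pm * p * bm - t) / (rm * 2) = am at ha1 hb3
      clear hAm
      replace ha1 := Nat.eq_of_beq_eq_true ha1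
      have hamR : (am : ℝ) = aS p r (m + 1) := by
        have h8 : ((rm * 2 * am + t : ℕ) : ℝ) = ((pm * p * bm : ℕ) : ℝ) := by rw [ha1]
        have h9 : ((rm * 2 : ℕ) : ℝ) ≠ 0 := by
          rw [hrm']
          positivity
        apply mul_left_cancel₀ h9
        rw [hrec]
        push_cast at h8 ⊢
        linear_combination h8
      exact ih (m + 1) (pm * p) (rm * 2) Xn Wn (bm :: b) (am :: a) (1 :: L0) (1 :: L1) (1 :: L2)
        (by omega) hpm' hrm' hXnR hWnR ⟨bm, b, rfl, hbmR, hbl⟩ ⟨am, a, rfl, hamR, hal⟩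
        E0' E1' E2' hb3

lemma chkD_sound : ∀ (fuel j cp : ℕ) (ds : List ℕ), (cp : ℝ) = cS j →
    chkD fuel ds (j + 1) cp = true → Asc cS (j + 1) fuel ds := by
  intro fuel
  induction fuel with
  | zero => intro _ _ _ _ _; trivial
  | succ fuel ih =>
    intro j cp ds hcp h
    cases ds with
    | nil => exact absurd h (by simp [chkD])
    | cons d t =>
      have h2 : chk (Nat.beq (d*(2*(j+1)*(2*(j+1)-1))) (cp*(4*(6*(j+1)-1)*(6*(j+1)-3)*(6*(j+1)-5))))
          (chkD fuel t (Nat.succ (j + 1)) d) = true := h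
      obtain ⟨h3, h4⟩ := chk_eq _ _ h2
      replace h3 := Nat.eq_of_beq_eq_true h3
      have hd : (d : ℝ) = cS (j + 1) := by
        have e1 : 2 * (j + 1) - 1 = 2 * j + 1 := by omega
        have e2 : 6 * (j + 1) - 1 = 6 * j + 5 := by omega
        have e3 : 6 * (j + 1) - 3 = 6 * j + 3 := by omega
        have e4 : 6 * (j + 1) - 5 = 6 * j + 1 := by omega
        rw [e1, e2, e3, e4] at h3
        have h5 : ((d * (2 * (j + 1) * (2 * j + 1)) : ℕ) : ℝ) =
            ((cp * (4 * (6 * j + 5) * (6 * j + 3) * (6 * j + 1)) : ℕ) : ℝ) := by rw [h3]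
        push_cast at h5
        rw [hcp] at h5
        have h6 : cc (j + 1) * ((2 * (j + 1) * (2 * (j : ℝ) + 1))) =
            cc j * ((6 * j + 5) * (6 * j + 3) * (6 * j + 1)) := by
          rw [cc, cc, show 6 * (j + 1) = 6 * j + 4 + 2 by ring, mu1,
            show 6 * j + 4 = 6 * j + 2 + 2 by ring, mu1, mu1,
            show 2 * (j + 1) = 2 * j + 1 + 1 by ring, Nat.factorial_succ, Nat.factorial_succ]
          push_cast
          have e : ((2 * j).factorial : ℝ) ≠ 0 := by positivity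
          field_simp
          ring
        have h7 : (2 * ((j : ℝ) + 1) * (2 * j + 1)) ≠ 0 := by positivity
        apply mul_right_cancel₀ h7
        rw [h5, cS, cS, pow_succ]
        linear_combination (-(4 : ℝ) ^ j * 4) * h6
      exact ⟨d, t, rfl, hd, ih (j + 1) d t hd h4⟩

theorem run_sound (M : ℕ) (hr : 0 < r) (hp : 2 * r ≤ p) (h : run p r M = true) :
    ∃ n, aR (xx p r) n < 0 := by
  obtain ⟨h1, h2⟩ := chk_eq _ _ h
  have hds : Asc cS (0 + 1) M (mkD M 1 1) := by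
    refine chkD_sound M 0 1 _ ?_ h1
    simp [cS, cc, mu]
  have one : ∀ f : ℕ → ℝ, f 0 = 1 → Desc f 0 [1] := fun f hf => ⟨1, rfl, by rw [hf]; norm_num⟩
  refine loop_sound hr hp (mkD M 1 1) M hds M 0 1 1 1 1 [1] [1] [1] [1] [1] (by omega)
    (by norm_num) (by norm_num) ?_ ?_ (one _ ?_) (one _ ?_) (one _ ?_) (one _ ?_) (one _ ?_) h2
  · rw [VS_top]; norm_num
  · rw [VS_top]; norm_num
  · rw [bS, pow_zero, bR_zero, one_mul]
  · rw [aS, aR_eq]
    simp [bR_zero]
  · rw [VS_top]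
  · rw [VS_top]
  · rw [VS_top]

end Spec

end Pool.Agent.Helper6.Flow
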