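import Mathlib

/-!
Flow polynomial of a finite simple graph: the colouring expansion, non-negativity at `8`, and the
reduction of the question to a negative value at a point between `6` and `8`.
-/

set_option autoImplicit false

namespace Pool.Agent.Helper6.Flow

open Finset SimpleGraph

section General

variable {V : Type} [Fintype V] [DecidableEq V]

/-- An edge whose two ends get the same colour. -/
def Mono {C : Type} (σ : V → C) (e : Sym2 V) : Prop := (e.map σ).IsDiag

instance {C : Type} [DecidableEq C] (σ : V → C) (e : Sym2 V) : Decidable (Mono σ e) :=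
  inferInstanceAs (Decidable ((e.map σ).IsDiag))

omit [Fintype V] [DecidableEq V] in
lemma mono_mk {C : Type} (σ : V → C) (u v : V) : Mono σ s(u, v) ↔ σ u = σ v := by
  simp [Mono]

/-- Colourings constant along the edges of `A` are functions on the connected components. -/
noncomputable def monoEquiv {C : Type} (A : Finset (Sym2 V)) :
    {σ : V → C // ∀ e ∈ A, Mono σ e} ≃
      ((fromEdgeSet (A : Set (Sym2 V))).ConnectedComponent → C) where
  toFun σ := ConnectedComponent.lift σ.1 (by
    intro v w p _
    induction p with
    | nil => rfl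
    | cons h _ ih =>
      rename_i hp
      have hadj := (fromEdgeSet_adj _).1 h
      have h1 := σ.2 _ (by simpa using hadj.1)
      rw [mono_mk] at h1
      rw [h1]
      exact ih hp.of_cons)
  invFun f := ⟨fun v => f (connectedComponentMk _ v), by
    intro e he
    induction e using Sym2.ind with
    | _ u v =>
      rw [mono_mk]
      by_cases huv : u = v
      · rw [huv]
      · have : (fromEdgeSet (A : Set (Sym2 V))).Adj u v := by
          rw [fromEdgeSet_adj]
          exact ⟨by simpa using he, huv⟩
        rw [ConnectedComponent.connectedComponentMk_eq_of_adj this]⟩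
  left_inv σ := by
    ext v
    rfl
  right_inv f := by
    ext c
    induction c using ConnectedComponent.ind with
    | _ v => rfl

lemma card_mono {C : Type} [Fintype C] [DecidableEq C] (A : Finset (Sym2 V)) :
    (univ.filter (fun σ : V → C => ∀ e ∈ A, Mono σ e)).card =
      (Fintype.card C) ^ (Nat.card (fromEdgeSet (A : Set (Sym2 V))).ConnectedComponent) := by
  rw [← Fintype.card_subtype, ← Nat.card_eq_fintype_card, Nat.card_congr (monoEquiv A),
    Nat.card_fun, Nat.card_eq_fintype_card]

/-- The number of components is at least `|V| - |A|`. -/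
lemma card_le (A : Finset (Sym2 V)) :
    Fintype.card V ≤ A.card + Nat.card (fromEdgeSet (A : Set (Sym2 V))).ConnectedComponent := by
  have key : ∀ A : Finset (Sym2 V), 2 ^ (Fintype.card V) ≤
      2 ^ A.card * (univ.filter (fun σ : V → ZMod 2 => ∀ e ∈ A, Mono σ e)).card := by
    intro A
    induction A using Finset.induction_on with
    | empty =>
      simp [ZMod.card]
    | insert e A he ih =>
      refine ih.trans ?_
      rw [card_insert_of_notMem he, pow_succ, mul_assoc]
      refine Nat.mul_le_mul le_rfl ?_
      set S := univ.filter (fun σ : V → ZMod 2 => ∀ e ∈ A, Mono σ e) with hS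
      set T := univ.filter (fun σ : V → ZMod 2 => ∀ e' ∈ insert e A, Mono σ e') with hT
      induction e using Sym2.ind with
      | _ u v =>
      have hTS : T = S.filter (fun σ => σ u = σ v) := by
        ext σ
        simp only [hT, hS, mem_filter, mem_univ, true_and, mem_insert, forall_eq_or_imp, mono_mk]
        tauto
      have hcard : S.card = T.card + (S.filter (fun σ => ¬ σ u = σ v)).card := by
        rw [hTS, card_filter_add_card_filter_not]
      rw [hcard, two_mul]
      refine Nat.add_le_add_left ?_ _
      by_cases hne : (S.filter (fun σ => ¬ σ u = σ v)).Nonempty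
      · obtain ⟨σ0, h0⟩ := hne
        rw [mem_filter] at h0
        refine card_le_card_of_injOn (fun σ => σ + σ0) ?_ ?_
        · intro σ hσ
          simp only [coe_filter, Set.mem_ofPred_eq] at hσ
          rw [hTS]
          simp only [coe_filter, Set.mem_ofPred_eq]
          constructor
          · simp only [hS, mem_filter, mem_univ, true_and]
            intro e he
            have h1 := (mem_filter.1 hσ.1).2 e he
            have h2 := (mem_filter.1 h0.1).2 e he
            induction e using Sym2.ind with
            | _ a b =>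
              rw [mono_mk] at h1 h2 ⊢
              simp [h1, h2]
          · have aux : ∀ a b c d : ZMod 2, ¬ a = b → ¬ c = d → a + c = b + d := by decide
            exact aux _ _ _ _ hσ.2 h0.2
        · intro σ _ τ _ h
          simpa using h
      · rw [not_nonempty_iff_eq_empty] at hne
        rw [hne]
        simp
  have h := key A
  rw [card_mono, ZMod.card, ← pow_add] at h
  exact (Nat.pow_le_pow_iff_right (by norm_num)).1 h

/-- The flow polynomial of a finite simple graph. -/
noncomputable def flowPoly (G : SimpleGraph V) [DecidableRel G.Adj] : Polynomial ℝ :=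
  ∑ A ∈ G.edgeFinset.powerset,
    Polynomial.C ((-1 : ℝ) ^ (G.edgeFinset.card - A.card)) *
      Polynomial.X ^ (A.card + Nat.card (SimpleGraph.fromEdgeSet (A : Set (Sym2 V))).ConnectedComponent
        - Fintype.card V)

lemma eval_flowPoly {C : Type} [Fintype C] [DecidableEq C] (G : SimpleGraph V)
    [DecidableRel G.Adj] :
    (Fintype.card C : ℝ) ^ (Fintype.card V) * (flowPoly G).eval (Fintype.card C : ℝ) =
      ∑ σ : V → C, ∏ e ∈ G.edgeFinset,
        ((Fintype.card C : ℝ) * (if Mono σ e then 1 else 0) - 1) := by
  set k : ℝ := (Fintype.card C : ℝ) with hk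
  have h1 : ∀ σ : V → C, ∏ e ∈ G.edgeFinset, (k * (if Mono σ e then (1 : ℝ) else 0) - 1) =
      ∑ A ∈ G.edgeFinset.powerset, (k ^ A.card * (if ∀ e ∈ A, Mono σ e then 1 else 0)) *
        (-1 : ℝ) ^ (G.edgeFinset.card - A.card) := by
    intro σ
    simp only [sub_eq_add_neg]
    rw [prod_add]
    refine sum_congr rfl fun A hA => ?_
    rw [prod_const, card_sdiff_of_subset (mem_powerset.1 hA), prod_mul_distrib, prod_const]
    congr 2
    by_cases h : ∀ e ∈ A, Mono σ e
    · rw [if_pos h]
      exact prod_eq_one fun e he => if_pos (h e he)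
    · rw [if_neg h]
      push Not at h
      obtain ⟨e, he, hne⟩ := h
      exact prod_eq_zero he (if_neg hne)
  simp only [h1]
  rw [sum_comm, flowPoly, Polynomial.eval_finsetSum, mul_sum]
  refine sum_congr rfl fun A _ => ?_
  rw [← sum_mul, ← mul_sum, sum_boole, card_mono]
  simp only [Polynomial.eval_mul, Polynomial.eval_C, Polynomial.eval_pow, Polynomial.eval_X]
  have hle := card_le A
  have : k ^ Fintype.card V * k ^ (A.card + Nat.card (fromEdgeSet (A : Set (Sym2 V))).ConnectedComponent
      - Fintype.card V) = k ^ A.card * k ^ (Nat.card (fromEdgeSet (A : Set (Sym2 V))).ConnectedComponent) := by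
    rw [← pow_add, ← pow_add]
    congr 1
    omega
  rw [Nat.cast_pow, ← hk]
  linear_combination ((-1 : ℝ) ^ (G.edgeFinset.card - A.card)) * this

end General

/-! ### Non-negativity at 8 -/

/-- sign table of the characters of the elementary abelian group of order 8 -/
def eps (a b : Fin 8) : ℤ :=
  if ((a.val &&& b.val) = 0 ∨ (a.val &&& b.val) = 3 ∨ (a.val &&& b.val) = 5 ∨
    (a.val &&& b.val) = 6) then 1 else -1

lemma eps_mul : ∀ a b : Fin 8, ∃ c : Fin 8, ∀ x : Fin 8, eps a x * eps b x = eps c x := by
  decide +kernel

lemma eps_sum_nonneg : ∀ a : Fin 8, 0 ≤ ∑ x : Fin 8, eps a x := by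
  decide +kernel

lemma eps_orth : ∀ x y : Fin 8, (8 : ℤ) * (if x = y then 1 else 0) - 1 =
    ∑ a ∈ univ.erase (0 : Fin 8), eps a x * eps a y := by
  decide +kernel

lemma eps_zero : ∀ x : Fin 8, eps 0 x = 1 := by
  decide +kernel

section Nonneg

variable {V : Type} [Fintype V] [DecidableEq V]

lemma nonneg_aux (A : Finset (Sym2 V)) (hA : ∀ e ∈ A, ¬ e.IsDiag) :
    ∀ θ : V → Fin 8, 0 ≤ ∑ σ : V → Fin 8, (∏ v, eps (θ v) (σ v)) *
      ∏ e ∈ A, ((8 : ℤ) * (if Mono σ e then 1 else 0) - 1) := by
  induction A using Finset.induction_on with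
  | empty =>
    intro θ
    simp only [prod_empty, mul_one]
    have h := (prod_univ_sum (fun _ : V => (univ : Finset (Fin 8))) (fun v x => eps (θ v) x))
    simp only [Fintype.piFinset_univ] at h
    rw [← h]
    exact prod_nonneg fun v _ => eps_sum_nonneg _
  | insert e A he ih =>
    intro θ
    have ih' := ih (fun e' he' => hA e' (mem_insert_of_mem he'))
    have hdiag := hA e (mem_insert_self _ _)
    choose op hop using eps_mul
    induction e using Sym2.ind with
    | _ u v =>
    rw [Sym2.mk_isDiag_iff] at hdiag
    have h1 : ∀ σ : V → Fin 8, (∏ w, eps (θ w) (σ w)) *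
        ∏ e ∈ insert s(u, v) A, ((8 : ℤ) * (if Mono σ e then 1 else 0) - 1) =
        ∑ a ∈ univ.erase (0 : Fin 8),
          (∏ w, eps (if w = u ∨ w = v then op (θ w) a else θ w) (σ w)) *
            ∏ e ∈ A, ((8 : ℤ) * (if Mono σ e then 1 else 0) - 1) := by
      intro σ
      rw [prod_insert he]
      have h2 : (if Mono σ s(u, v) then (1 : ℤ) else 0) = if σ u = σ v then 1 else 0 := by
        simp only [mono_mk]
      rw [h2, eps_orth, ← sum_mul, ← mul_assoc]
      congr 1
      rw [mul_sum]
      refine sum_congr rfl fun a _ => ?_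
      have h3 : ∀ w, eps (if w = u ∨ w = v then op (θ w) a else θ w) (σ w) =
          eps (θ w) (σ w) * (if w = u ∨ w = v then eps a (σ w) else 1) := by
        intro w
        split_ifs with hw
        · rw [hop]
        · rw [mul_one]
      simp only [h3]
      rw [prod_mul_distrib]
      congr 1
      rw [prod_ite, prod_const_one, mul_one]
      have h4 : univ.filter (fun w => w = u ∨ w = v) = {u, v} := by
        ext w
        simp
      rw [h4, prod_pair hdiag]
    simp only [h1]
    rw [sum_comm]
    exact sum_nonneg fun a _ => ih' _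

lemma flowPoly_eight_nonneg (G : SimpleGraph V) [DecidableRel G.Adj] :
    0 ≤ (flowPoly G).eval 8 := by
  have h := eval_flowPoly (C := Fin 8) G
  simp only [Fintype.card_fin, Nat.cast_ofNat] at h
  have h2 : 0 ≤ ∑ σ : V → Fin 8, ∏ e ∈ G.edgeFinset,
      ((8 : ℝ) * (if Mono σ e then 1 else 0) - 1) := by
    have h3 := nonneg_aux G.edgeFinset (fun e he => G.not_isDiag_of_mem_edgeFinset he)
      (fun _ => 0)
    simp only [eps_zero, prod_const_one, one_mul] at h3
    exact_mod_cast h3
  rw [← h] at h2
  exact nonneg_of_mul_nonneg_right h2 (by positivity)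

/-- A negative value at a point above `6` gives a real root above `6`. -/
lemma exists_root (G : SimpleGraph V) [DecidableRel G.Adj] (q : ℝ) (hq6 : 6 < q) (hq8 : q ≤ 8)
    (hneg : (flowPoly G).eval q < 0) :
    flowPoly G ≠ 0 ∧ ∃ x, 6 < x ∧ (flowPoly G).IsRoot x := by
  constructor
  · intro h
    rw [h] at hneg
    simp at hneg
  · have hc : ContinuousOn (fun x => (flowPoly G).eval x) (Set.Icc q 8) :=
      (flowPoly G).continuous.continuousOn
    have := intermediate_value_Icc hq8 hc
    obtain ⟨x, hx, hx0⟩ := this ⟨hneg.le, flowPoly_eight_nonneg G⟩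
    exact ⟨x, lt_of_lt_of_le hq6 hx.1, hx0⟩

end Nonneg

end Pool.Agent.Helper6.Flow
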