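import Mathlib
import Pool.Agent.Helper6.Flow.Graph

/-!
Perfect matchings of a list of half-edges, the cubic (subdivided) graph of a matching, and the
Wick type formula which expresses the sum of the flow polynomials at a natural number.
-/

set_option autoImplicit false

namespace Pool.Agent.Helper6.Flow

open Finset SimpleGraph

section Lists

variable {α : Type}

/-- all ways to take one element out of a list -/
def picks : List α → List (α × List α)
  | [] => []
  | b :: l => (b, l) :: (picks l).map (fun c => (c.1, b :: c.2))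

/-- perfect matchings of a list (of length `2 n`) -/
def matchings : ℕ → List α → List (List (α × α))
  | 0, _ => [[]]
  | _ + 1, [] => []
  | n + 1, a :: l => (picks l).flatMap (fun b => (matchings n b.2).map (fun M => (a, b.1) :: M))

/-- the list of all ends -/
def flat (M : List (α × α)) : List α := M.flatMap (fun p => [p.1, p.2])

lemma perm_of_mem_picks {b : α} {l' : List α} : ∀ {l : List α}, (b, l') ∈ picks l →
    (b :: l').Perm l := by
  intro l
  induction l generalizing l' with
  | nil => intro h; simp [picks] at h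
  | cons a l ih =>
    intro h
    simp only [picks, List.mem_cons, Prod.mk.injEq, List.mem_map, Prod.exists] at h
    rcases h with ⟨rfl, rfl⟩ | ⟨c, t, hct, rfl, rfl⟩
    · exact List.Perm.refl _
    · exact (List.Perm.swap a c t).trans ((ih hct).cons a)

lemma perm_flat {n : ℕ} : ∀ {l : List α} {M : List (α × α)}, l.length = 2 * n →
    M ∈ matchings n l → (flat M).Perm l := by
  induction n with
  | zero =>
    intro l M hl hM
    simp only [mul_zero, List.length_eq_zero_iff] at hl
    simp only [matchings, List.mem_singleton] at hM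
    subst hl hM
    exact List.Perm.refl _
  | succ n ih =>
    intro l M hl hM
    cases l with
    | nil => simp at hl
    | cons a l =>
      simp only [matchings, List.mem_flatMap, List.mem_map, Prod.exists] at hM
      obtain ⟨b, l', hb, M', hM', rfl⟩ := hM
      have hp := perm_of_mem_picks hb
      have hlen := hp.length_eq
      simp only [List.length_cons] at hlen hl
      have := ih (by omega) hM'
      have h2 : flat ((a, b) :: M') = a :: b :: flat M' := rfl
      rw [h2]
      exact ((this.cons b).trans hp).cons a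

end Lists

section Wick

variable {R : Type} [CommRing R] [Algebra ℝ R] {α : Type}

lemma sum_flatMap' {β : Type} (l : List β) (f : β → List ℝ) :
    (l.flatMap f).sum = (l.map (fun a => (f a).sum)).sum := by
  induction l with
  | nil => simp
  | cons a l ih => simp [List.flatMap_cons, ih]

lemma derivation_prod (D : Derivation ℝ R R) (g : α → R) (l : List α) :
    D ((l.map g).prod) = ((picks l).map (fun b => (b.2.map g).prod * D (g b.1))).sum := by
  induction l with
  | nil => simp [picks]
  | cons a l ih =>
    simp only [List.map_cons, List.prod_cons, Derivation.leibniz, smul_eq_mul, picks,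
      List.sum_cons, List.map_map]
    rw [ih, add_comm]
    congr 1
    rw [← List.sum_map_mul_left]
    congr 1
    refine List.map_congr_left fun b _ => ?_
    simp only [Function.comp_apply, List.map_cons, List.prod_cons]
    ring

variable {C : Type}

/-- Wick's formula. -/
lemma wick (E : R →ₗ[ℝ] ℝ) (Y : C → R) (D : C → Derivation ℝ R R) (w : C → C → ℝ)
    (hD : ∀ c c', D c (Y c') = algebraMap ℝ R (w c c'))
    (hE : ∀ c f, E (Y c * f) = E (D c f)) (h1 : E 1 = 1) (s : α → C) (n : ℕ) :
    ∀ l : List α, l.length = 2 * n → E ((l.map (fun h => Y (s h))).prod) =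
      ((matchings n l).map (fun M => (M.map (fun p => w (s p.1) (s p.2))).prod)).sum := by
  induction n with
  | zero =>
    intro l hl
    simp only [mul_zero, List.length_eq_zero_iff] at hl
    subst hl
    simp [matchings, h1]
  | succ n ih =>
    intro l hl
    cases l with
    | nil => simp at hl
    | cons a l =>
      simp only [List.map_cons, List.prod_cons, hE, matchings]
      rw [derivation_prod, map_list_sum, List.map_map, List.map_flatMap, sum_flatMap']
      congr 1
      refine List.map_congr_left fun b hb => ?_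
      have hlen := (perm_of_mem_picks (l := l) (b := b.1) (l' := b.2) hb).length_eq
      simp only [List.length_cons] at hlen hl
      simp only [Function.comp_apply, hD, List.map_map]
      rw [mul_comm, ← Algebra.smul_def, map_smul, smul_eq_mul, ih b.2 (by omega),
        ← List.sum_map_mul_left]
      congr 1

end Wick

section GraphOf

variable {N : ℕ}

/-- The graph of a list of pairs of half-edges: three half-edge vertices at each centre. -/
def gr (M : List ((Fin N × Fin 3) × (Fin N × Fin 3))) :
    SimpleGraph (Fin N ⊕ (Fin N × Fin 3)) :=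
  fromEdgeSet ({e | ∃ h : Fin N × Fin 3, e = s(Sum.inl h.1, Sum.inr h)} ∪
    {e | ∃ p ∈ M, e = s(Sum.inr p.1, Sum.inr p.2)})

lemma ne_of_mem_flat {α : Type} {M : List (α × α)} (hM : (flat M).Nodup) {p : α × α}
    (hp : p ∈ M) : p.1 ≠ p.2 := by
  induction M with
  | nil => simp at hp
  | cons q M ih =>
    have h2 : flat (q :: M) = q.1 :: q.2 :: flat M := rfl
    rw [h2, List.nodup_cons, List.nodup_cons] at hM
    rcases List.mem_cons.1 hp with rfl | hp
    · intro h
      apply hM.1
      rw [h]
      exact List.mem_cons_self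
    · exact ih hM.2.2 hp

lemma mem_flat {α : Type} {M : List (α × α)} {p : α × α} (hp : p ∈ M) :
    p.1 ∈ flat M ∧ p.2 ∈ flat M := by
  unfold flat
  simp only [List.mem_flatMap]
  exact ⟨⟨p, hp, by simp⟩, ⟨p, hp, by simp⟩⟩

lemma nodup_edges {M : List ((Fin N × Fin 3) × (Fin N × Fin 3))} (hM : (flat M).Nodup) :
    (M.map (fun p => (s(Sum.inr p.1, Sum.inr p.2) : Sym2 (Fin N ⊕ (Fin N × Fin 3))))).Nodup := by
  induction M with
  | nil => simp
  | cons q M ih =>
    have h2 : flat (q :: M) = q.1 :: q.2 :: flat M := rfl
    rw [h2, List.nodup_cons, List.nodup_cons] at hM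
    rw [List.map_cons, List.nodup_cons]
    refine ⟨?_, ih hM.2.2⟩
    intro h
    rw [List.mem_map] at h
    obtain ⟨p, hp, hpq⟩ := h
    have hmem := mem_flat hp
    rw [Sym2.eq_iff] at hpq
    rcases hpq with ⟨h1, _⟩ | ⟨h1, _⟩
    · have := Sum.inr_injective h1
      exact hM.1 (List.mem_cons_of_mem _ (this ▸ hmem.1))
    · have := Sum.inr_injective h1
      exact hM.2.1 (this ▸ hmem.1)

open Classical in
lemma prod_edges {M : List ((Fin N × Fin 3) × (Fin N × Fin 3))} (hM : (flat M).Nodup)
    (f : Sym2 (Fin N ⊕ (Fin N × Fin 3)) → ℝ) :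
    ∏ e ∈ (gr M).edgeFinset, f e =
      (∏ h : Fin N × Fin 3, f s(Sum.inl h.1, Sum.inr h)) *
        (M.map (fun p => f s(Sum.inr p.1, Sum.inr p.2))).prod := by
  have hE : (gr M).edgeFinset =
      (univ.image (fun h : Fin N × Fin 3 =>
        (s(Sum.inl h.1, Sum.inr h) : Sym2 (Fin N ⊕ (Fin N × Fin 3))))) ∪
      (M.map (fun p => (s(Sum.inr p.1, Sum.inr p.2) :
        Sym2 (Fin N ⊕ (Fin N × Fin 3))))).toFinset := by
    ext e
    rw [mem_edgeFinset, gr, edgeSet_fromEdgeSet]
    simp only [Set.mem_sdiff, Set.mem_union, Set.mem_ofPred_eq, Sym2.mem_diagSet, mem_union,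
      mem_image, mem_univ, true_and, List.mem_toFinset, List.mem_map]
    constructor
    · rintro ⟨⟨h, rfl⟩ | ⟨p, hp, rfl⟩, _⟩
      · exact Or.inl ⟨h, rfl⟩
      · exact Or.inr ⟨p, hp, rfl⟩
    · rintro (⟨h, rfl⟩ | ⟨p, hp, rfl⟩)
      · exact ⟨Or.inl ⟨h, rfl⟩, by simp⟩
      · refine ⟨Or.inr ⟨p, hp, rfl⟩, ?_⟩
        rw [Sym2.mk_isDiag_iff]
        intro h
        exact ne_of_mem_flat hM hp (Sum.inr_injective h)
  have hdisj : Disjoint (univ.image (fun h : Fin N × Fin 3 =>
        (s(Sum.inl h.1, Sum.inr h) : Sym2 (Fin N ⊕ (Fin N × Fin 3)))))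
      (M.map (fun p => (s(Sum.inr p.1, Sum.inr p.2) :
        Sym2 (Fin N ⊕ (Fin N × Fin 3))))).toFinset := by
    rw [Finset.disjoint_left]
    intro e he he'
    rw [mem_image] at he
    rw [List.mem_toFinset, List.mem_map] at he'
    obtain ⟨h, _, rfl⟩ := he
    obtain ⟨p, _, hp⟩ := he'
    rw [Sym2.eq_iff] at hp
    rcases hp with ⟨h1, _⟩ | ⟨_, h1⟩
    · exact Sum.inr_ne_inl h1
    · exact Sum.inr_ne_inl h1
  rw [hE, prod_union hdisj, prod_image, List.prod_toFinset _ (nodup_edges hM), List.map_map]
  · rfl
  · intro h _ h' _ hh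
    simp only [Sym2.eq_iff, Sum.inl.injEq, Sum.inr.injEq] at hh
    rcases hh with ⟨_, h1⟩ | ⟨h1, _⟩
    · exact h1
    · exact absurd h1 Sum.inl_ne_inr

end GraphOf

end Pool.Agent.Helper6.Flow
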