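import Mathlib
import Pool.Agent.Helper6.Flow.Match

/-!
The sum of the flow polynomials of all matchings at a natural number as a Gaussian type moment.
-/

set_option autoImplicit false

namespace Pool.Agent.Helper6.Flow

open Finset SimpleGraph

lemma list_sum_comm {α ι : Type} (l : List α) (s : Finset ι) (f : α → ι → ℝ) :
    (l.map (fun a => ∑ i ∈ s, f a i)).sum = ∑ i ∈ s, (l.map (fun a => f a i)).sum := by
  induction l with
  | nil => simp
  | cons a l ih => simp [ih, sum_add_distrib]

open Classical in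
/-- The sum, over all matchings, of the flow polynomials, at the number of colours. -/
theorem sum_graph {R : Type} [CommRing R] [Algebra ℝ R] {C : Type} [Fintype C]
    (E : R →ₗ[ℝ] ℝ) (Y : C → R) (D : C → Derivation ℝ R R)
    (hD : ∀ c c', D c (Y c') =
      algebraMap ℝ R ((Fintype.card C : ℝ) * (if c = c' then 1 else 0) - 1))
    (hE : ∀ c f, E (Y c * f) = E (D c f)) (h1 : E 1 = 1) (hY : ∑ c, Y c = 0)
    (N n : ℕ) (hn : 3 * N = 2 * n) :
    ((matchings n (univ.toList : List (Fin N × Fin 3))).map (fun M =>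
      (Fintype.card C : ℝ) ^ (Fintype.card (Fin N ⊕ (Fin N × Fin 3))) *
        (flowPoly (gr M)).eval (Fintype.card C : ℝ))).sum =
      (Fintype.card C : ℝ) ^ (3 * N) * E ((∑ c, Y c ^ 3) ^ N) := by
  set k : ℝ := (Fintype.card C : ℝ) with hk
  set w : C → C → ℝ := fun c c' => k * (if c = c' then 1 else 0) - 1 with hw
  set L : List (Fin N × Fin 3) := univ.toList with hL
  have hlen : L.length = 2 * n := by
    rw [hL, length_toList, card_univ, Fintype.card_prod, Fintype.card_fin, Fintype.card_fin]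
    omega
  -- step 1
  have step1 : ∀ M ∈ matchings n L, k ^ (Fintype.card (Fin N ⊕ (Fin N × Fin 3))) *
        (flowPoly (gr M)).eval k = ∑ τ : (Fin N → C) × ((Fin N × Fin 3) → C),
          (∏ h : Fin N × Fin 3, w (τ.1 h.1) (τ.2 h)) *
            (M.map (fun p => w (τ.2 p.1) (τ.2 p.2))).prod := by
    intro M hM
    have hnd : (flat M).Nodup := (perm_flat hlen hM).nodup_iff.2 (nodup_toList _)
    rw [hk, eval_flowPoly (C := C) (gr M), ← hk]
    rw [← (Equiv.sumArrowEquivProdArrow (Fin N) (Fin N × Fin 3) C).symm.sum_comp]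
    refine sum_congr rfl fun τ _ => ?_
    rw [prod_edges hnd]
    simp only [mono_mk, Equiv.sumArrowEquivProdArrow, Equiv.coe_fn_symm_mk, Sum.elim_inl,
      Sum.elim_inr]
    rfl
  rw [List.map_congr_left step1, list_sum_comm]
  -- step 2
  have step2 : ∀ τ : (Fin N → C) × ((Fin N × Fin 3) → C),
      ((matchings n L).map (fun M => (∏ h : Fin N × Fin 3, w (τ.1 h.1) (τ.2 h)) *
            (M.map (fun p => w (τ.2 p.1) (τ.2 p.2))).prod)).sum =
      E (∏ h : Fin N × Fin 3, (w (τ.1 h.1) (τ.2 h)) • Y (τ.2 h)) := by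
    intro τ
    rw [List.sum_map_mul_left, ← wick E Y D w hD hE h1 τ.2 n L hlen]
    rw [prod_smul, map_smul, smul_eq_mul]
    congr 2
    rw [hL, prod_map_toList]
  rw [sum_congr rfl fun τ _ => step2 τ, Fintype.sum_prod_type]
  have step3 : ∀ σ : Fin N → C, ∑ ρ : (Fin N × Fin 3) → C,
      E (∏ h : Fin N × Fin 3, (w (σ h.1) (ρ h)) • Y (ρ h)) =
      k ^ (3 * N) * E (∏ v : Fin N, Y (σ v) ^ 3) := by
    intro σ
    rw [← map_sum]
    have h := prod_univ_sum (fun _ : Fin N × Fin 3 => (univ : Finset C))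
      (fun h x => (w (σ h.1) x) • Y x)
    simp only [Fintype.piFinset_univ] at h
    rw [← h]
    have h2 : ∀ c : C, ∑ x : C, (w c x) • Y x = k • Y c := by
      intro c
      simp only [hw, sub_smul, one_smul, sum_sub_distrib, hY, sub_zero, mul_ite, mul_one,
        mul_zero, ite_smul, zero_smul, sum_ite_eq, mem_univ, if_true]
    simp only [h2]
    rw [prod_smul, map_smul, smul_eq_mul, prod_const, card_univ, Fintype.card_prod,
      Fintype.card_fin, Fintype.card_fin, mul_comm N 3, Fintype.prod_prod_type]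
    simp only [prod_const, card_univ, Fintype.card_fin]
  rw [sum_congr rfl fun σ _ => step3 σ, ← mul_sum, ← map_sum]
  congr 2
  rw [sum_pow', Fintype.piFinset_univ]

end Pool.Agent.Helper6.Flow
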