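import Mathlib
import Pool.Agent.Helper6.Flow.Total
import Pool.Agent.Helper6.Flow.Sound
import Pool.Agent.Helper6.Flow.Eval

/-!
The sum of the flow polynomials of all matchings is the polynomial of the recursion; a graph whose
flow polynomial is negative at `193/32`.
-/

set_option autoImplicit false

namespace Pool.Agent.Helper6.Flow

open Finset

/-- a real function given by a polynomial -/
def IsPoly (f : ℝ → ℝ) : Prop := ∃ P : Polynomial ℝ, ∀ x, P.eval x = f x

lemma IsPoly.const (c : ℝ) : IsPoly (fun _ => c) := ⟨Polynomial.C c, fun x => by simp⟩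

lemma IsPoly.id : IsPoly (fun x => x) := ⟨Polynomial.X, fun x => by simp⟩

lemma IsPoly.add {f g : ℝ → ℝ} (hf : IsPoly f) (hg : IsPoly g) : IsPoly (fun x => f x + g x) := by
  obtain ⟨P, hP⟩ := hf
  obtain ⟨Q, hQ⟩ := hg
  exact ⟨P + Q, fun x => by rw [Polynomial.eval_add, hP, hQ]⟩

lemma IsPoly.sub {f g : ℝ → ℝ} (hf : IsPoly f) (hg : IsPoly g) : IsPoly (fun x => f x - g x) := by
  obtain ⟨P, hP⟩ := hf
  obtain ⟨Q, hQ⟩ := hg
  exact ⟨P - Q, fun x => by rw [Polynomial.eval_sub, hP, hQ]⟩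

lemma IsPoly.mul {f g : ℝ → ℝ} (hf : IsPoly f) (hg : IsPoly g) : IsPoly (fun x => f x * g x) := by
  obtain ⟨P, hP⟩ := hf
  obtain ⟨Q, hQ⟩ := hg
  exact ⟨P * Q, fun x => by rw [Polynomial.eval_mul, hP, hQ]⟩

lemma IsPoly.div {f : ℝ → ℝ} (hf : IsPoly f) (c : ℝ) : IsPoly (fun x => f x / c) := by
  have h := hf.mul (IsPoly.const c⁻¹)
  simpa only [div_eq_mul_inv] using h

lemma IsPoly.pow {f : ℝ → ℝ} (hf : IsPoly f) (n : ℕ) : IsPoly (fun x => f x ^ n) := by
  obtain ⟨P, hP⟩ := hf
  exact ⟨P ^ n, fun x => by rw [Polynomial.eval_pow, hP]⟩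

lemma IsPoly.sum {ι : Type} (s : Finset ι) (f : ι → ℝ → ℝ) (h : ∀ i ∈ s, IsPoly (f i)) :
    IsPoly (fun x => ∑ i ∈ s, f i x) := by
  induction s using Finset.cons_induction with
  | empty => simpa using IsPoly.const 0
  | cons a s ha ih =>
    simp only [sum_cons]
    exact (h a (mem_cons_self a s)).add (ih fun i hi => h i (mem_cons_of_mem hi))

lemma IsPoly.prod {ι : Type} (s : Finset ι) (f : ι → ℝ → ℝ) (h : ∀ i ∈ s, IsPoly (f i)) :
    IsPoly (fun x => ∏ i ∈ s, f i x) := by
  induction s using Finset.cons_induction with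
  | empty => simpa using IsPoly.const 1
  | cons a s ha ih =>
    simp only [prod_cons]
    exact (h a (mem_cons_self a s)).mul (ih fun i hi => h i (mem_cons_of_mem hi))

lemma isPoly_Ph (n : ℕ) {g : ℝ → ℝ} (hg : IsPoly g) : IsPoly (fun x => Ph n (g x)) := by
  unfold Ph
  refine IsPoly.sum _ _ fun b _ => ?_
  refine IsPoly.div (IsPoly.mul (IsPoly.mul (IsPoly.const _) ?_) (IsPoly.const _)) _
  exact IsPoly.prod _ _ fun i _ => hg.add (IsPoly.const _)

lemma isPoly_bR (m : ℕ) : IsPoly (fun x => bR x m) := by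
  induction m using Nat.strong_induction_on with
  | _ m ih =>
    rcases Nat.eq_zero_or_pos m with hm | hm
    · subst hm
      simp only [bR_zero]
      exact IsPoly.const 1
    · obtain ⟨m, rfl⟩ := Nat.exists_eq_succ_of_ne_zero hm.ne'
      have h : (fun x => bR x (m + 1)) = fun x =>
          (∑ j ∈ range (m + 1), (x * (j + 1) - ((m : ℝ) - j)) * cc (j + 1) * bR x (m - j)) /
            ((m : ℝ) + 1) := by
        funext x
        rw [← bR_succ, mul_div_cancel_left₀ _ (by positivity)]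
      rw [Nat.succ_eq_add_one, h]
      refine IsPoly.div (IsPoly.sum _ _ fun j _ => ?_) _
      exact IsPoly.mul (IsPoly.mul (IsPoly.sub (IsPoly.id.mul (IsPoly.const _)) (IsPoly.const _))
        (IsPoly.const _)) (ih (m - j) (by omega))

lemma isPoly_aR (m : ℕ) : IsPoly (fun x => aR x m) := by
  induction m using Nat.strong_induction_on with
  | _ m ih =>
    have h : (fun x => aR x m) = fun x => x ^ m * bR x m -
        ∑ i ∈ range m, aR x i * Ph (2 * (m - i)) (6 * i + x - 1) := by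
      funext x
      rw [← aR_eq]
    rw [h]
    refine IsPoly.sub ((IsPoly.id.pow m).mul (isPoly_bR m)) (IsPoly.sum _ _ fun i hi => ?_)
    refine (ih i (mem_range.1 hi)).mul (isPoly_Ph _ ?_)
    exact ((IsPoly.const _).add IsPoly.id).sub (IsPoly.const _)

open Classical in
/-- The sum of the flow polynomials over all matchings. -/
noncomputable def Rpoly (m : ℕ) : Polynomial ℝ :=
  ((matchings (3 * m) (univ.toList : List (Fin (2 * m) × Fin 3))).map
    (fun M => flowPoly (gr M))).sum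

open Classical in
lemma eval_Rpoly (m : ℕ) (x : ℝ) : (Rpoly m).eval x =
    ((matchings (3 * m) (univ.toList : List (Fin (2 * m) × Fin 3))).map
      (fun M => (flowPoly (gr M)).eval x)).sum := by
  rw [Rpoly, ← Polynomial.coe_evalRingHom, map_list_sum, List.map_map]
  rfl

lemma eval_Rpoly_nat (m k : ℕ) : (Rpoly m).eval (((k + 1 : ℕ)) : ℝ) =
    (2 * m).factorial * aR (((k + 1 : ℕ)) : ℝ) m := by
  classical
  have h := sum_graph (C := Fin (k + 1)) E0 Yv Dv (fun c c' => by convert Dv_Y c c') E0_Y E0_one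
    sum_Y (2 * m) (3 * m) (by ring)
  have h2 := E0_pp (C := Fin (k + 1)) m
  rw [pp] at h2
  rw [List.sum_map_mul_left, ← eval_Rpoly] at h
  simp only [Fintype.card_sum, Fintype.card_prod, Fintype.card_fin] at h h2
  have hk : (((k + 1 : ℕ)) : ℝ) ≠ 0 := by positivity
  have hf : ((2 * m).factorial : ℝ) ≠ 0 := by positivity
  rw [div_eq_iff hf] at h2
  rw [h2] at h
  have e : (((k + 1 : ℕ)) : ℝ) ^ (2 * m + 2 * m * 3) ≠ 0 := pow_ne_zero _ hk
  apply mul_left_cancel₀ e
  rw [h]
  have e2 : 2 * m + 2 * m * 3 = 3 * (2 * m) + 2 * m := by ring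
  rw [e2, pow_add]
  ring

lemma eval_Rpoly_real (m : ℕ) (x : ℝ) : (Rpoly m).eval x = (2 * m).factorial * aR x m := by
  obtain ⟨P, hP⟩ := isPoly_aR m
  have h : Rpoly m = Polynomial.C ((2 * m).factorial : ℝ) * P := by
    refine Polynomial.eq_of_infinite_eval_eq _ _ ?_
    refine Set.Infinite.mono (s := Set.range (fun k : ℕ => (((k + 1 : ℕ)) : ℝ))) ?_ ?_
    · rintro _ ⟨k, rfl⟩
      show Polynomial.eval (((k + 1 : ℕ)) : ℝ) (Rpoly m) =
        Polynomial.eval (((k + 1 : ℕ)) : ℝ) (Polynomial.C ((2 * m).factorial : ℝ) * P)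
      rw [eval_Rpoly_nat, Polynomial.eval_mul, Polynomial.eval_C, hP]
    · refine Set.infinite_range_of_injective ?_
      intro a b hab
      have : (((a + 1 : ℕ)) : ℝ) = (((b + 1 : ℕ)) : ℝ) := hab
      have := Nat.cast_injective this
      omega
  rw [h, Polynomial.eval_mul, Polynomial.eval_C, hP]

open Classical in
/-- There is a graph whose flow polynomial is negative at `193/32`. -/
theorem exists_neg : ∃ (N : ℕ) (M : List ((Fin N × Fin 3) × (Fin N × Fin 3))),
    (flowPoly (gr M)).eval ((193 : ℝ) / 32) < 0 := by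
  obtain ⟨m, hm⟩ := run_sound (p := 193) (r := 32) 452 (by norm_num) (by norm_num) Prog.run_true
  have hx : xx 193 32 = (193 : ℝ) / 32 := by
    rw [xx]
    norm_num
  rw [hx] at hm
  by_contra hcon
  push Not at hcon
  have h1 : 0 ≤ (Rpoly m).eval ((193 : ℝ) / 32) := by
    rw [eval_Rpoly]
    refine List.sum_nonneg ?_
    intro y hy
    rw [List.mem_map] at hy
    obtain ⟨M, _, rfl⟩ := hy
    exact hcon _ M
  rw [eval_Rpoly_real] at h1
  have h2 : (0 : ℝ) < (2 * m).factorial := by positivity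
  have := mul_neg_of_pos_of_neg h2 hm
  linarith

open Classical in
/-- There is a graph with a flow root above `6`. -/
theorem exists_root_above : ∃ (N : ℕ) (G : SimpleGraph (Fin N ⊕ (Fin N × Fin 3))) (x : ℝ),
    flowPoly G ≠ 0 ∧ 6 < x ∧ (flowPoly G).IsRoot x := by
  obtain ⟨N, M, h⟩ := exists_neg
  obtain ⟨h1, x, h2, h3⟩ := exists_root (gr M) ((193 : ℝ) / 32) (by norm_num) (by norm_num) h
  exact ⟨N, gr M, x, h1, h2, h3⟩

end Pool.Agent.Helper6.Flow
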